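import Mathlib

set_option autoImplicit false
open MeasureTheory Set Real

namespace Pool.Agent.H73.CE

/-- The stadium: the sum of the unit disc and the segment from `(-τ, 0)` to `(τ, 0)`. -/
def stad (τ : ℝ) : Set (Fin 2 → ℝ) := {z | ∃ s : ℝ, |s| ≤ 1 ∧ (z 0 - s * τ) ^ 2 + (z 1) ^ 2 ≤ 1}

lemma mem_stad_iff {τ : ℝ} (hτ : 0 ≤ τ) (z : Fin 2 → ℝ) :
    z ∈ stad τ ↔ |z 1| ≤ 1 ∧ |z 0| ≤ τ + √(1 - z 1 ^ 2) := by
  constructor
  · rintro ⟨s, hs, h⟩
    have h1 : (z 1) ^ 2 ≤ 1 := by nlinarith [sq_nonneg (z 0 - s * τ)]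
    refine ⟨by rwa [← sq_le_one_iff_abs_le_one], ?_⟩
    have h2 : |z 0 - s * τ| ≤ √(1 - z 1 ^ 2) := by
      apply Real.abs_le_sqrt
      linarith
    have h3 : |s * τ| ≤ τ := by
      rw [abs_mul, abs_of_nonneg hτ]
      nlinarith [abs_nonneg s]
    calc |z 0| = |(z 0 - s * τ) + s * τ| := by ring_nf
      _ ≤ |z 0 - s * τ| + |s * τ| := abs_add_le _ _
      _ ≤ _ := by linarith
  · rintro ⟨h1, h2⟩
    have h1' : z 1 ^ 2 ≤ 1 := by rwa [sq_le_one_iff_abs_le_one]
    by_cases h : |z 0| ≤ τ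
    · rcases hτ.eq_or_lt with h0 | h0
      · refine ⟨0, by simp, ?_⟩
        have : z 0 = 0 := by
          rw [← h0] at h
          exact abs_nonpos_iff.1 h
        rw [this]; simpa using h1
      · refine ⟨z 0 / τ, ?_, ?_⟩
        · rw [abs_div, abs_of_pos h0]
          exact (div_le_one h0).2 h
        · rw [div_mul_cancel₀ _ h0.ne']
          simpa using h1
    · push Not at h
      have hs : 0 ≤ √(1 - z 1 ^ 2) := Real.sqrt_nonneg _
      have hs2 : √(1 - z 1 ^ 2) ^ 2 = 1 - z 1 ^ 2 := Real.sq_sqrt (by linarith)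
      rcases le_total 0 (z 0) with h0 | h0
      · refine ⟨1, by simp, ?_⟩
        rw [abs_of_nonneg h0] at h h2
        nlinarith
      · refine ⟨-1, by simp, ?_⟩
        rw [abs_of_nonpos h0] at h h2
        nlinarith

/-- The stadium in the product `ℝ × ℝ`. -/
def stadP (τ : ℝ) : Set (ℝ × ℝ) := {p | |p.2| ≤ 1 ∧ |p.1| ≤ τ + √(1 - p.2 ^ 2)}

lemma isClosed_stadP (τ : ℝ) : IsClosed (stadP τ) := by
  have h1 : IsClosed {p : ℝ × ℝ | |p.2| ≤ 1} := isClosed_le (by fun_prop) (by fun_prop)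
  have h2 : IsClosed {p : ℝ × ℝ | |p.1| ≤ τ + √(1 - p.2 ^ 2)} :=
    isClosed_le (by fun_prop) (by fun_prop)
  exact h1.inter h2

lemma volume_stadP {τ : ℝ} (hτ : 0 ≤ τ) : volume (stadP τ) = ENNReal.ofReal (π + 4 * τ) := by
  rw [Measure.volume_eq_prod, Measure.prod_apply_symm (isClosed_stadP τ).measurableSet]
  have h1 : ∀ y : ℝ, volume ((fun x => (x, y)) ⁻¹' stadP τ) =
      (Icc (-1 : ℝ) 1).indicator (fun y => ENNReal.ofReal (2 * (τ + √(1 - y ^ 2)))) y := by
    intro y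
    by_cases hy : y ∈ Icc (-1 : ℝ) 1
    · rw [indicator_of_mem hy]
      have : (fun x => (x, y)) ⁻¹' stadP τ = Icc (-(τ + √(1 - y ^ 2))) (τ + √(1 - y ^ 2)) := by
        ext x
        simp only [stadP, mem_preimage, mem_ofPred_eq, mem_Icc, abs_le]
        constructor
        · rintro ⟨_, h⟩; exact h
        · intro h; exact ⟨hy, h⟩
      rw [this, Real.volume_Icc]
      congr 1; ring
    · rw [indicator_of_notMem hy]
      have : (fun x => (x, y)) ⁻¹' stadP τ = ∅ := by
        ext x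
        simp only [stadP, mem_preimage, mem_ofPred_eq, mem_empty_iff_false, iff_false, not_and]
        intro h
        exact absurd (by rwa [abs_le] at h) hy
      rw [this, measure_empty]
  simp_rw [h1]
  rw [lintegral_indicator measurableSet_Icc, ← ofReal_integral_eq_lintegral_ofReal]
  · congr 1
    rw [integral_Icc_eq_integral_Ioc, ← intervalIntegral.integral_of_le (by norm_num)]
    rw [intervalIntegral.integral_const_mul, intervalIntegral.integral_add (by simp)
      (by apply Continuous.intervalIntegrable; fun_prop), integral_sqrt_one_sub_sq]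
    simp
    ring
  · apply Continuous.integrableOn_Icc
    fun_prop
  · filter_upwards with y
    positivity

lemma volume_stad {τ : ℝ} (hτ : 0 ≤ τ) : volume (stad τ) = ENNReal.ofReal (π + 4 * τ) := by
  have h : stad τ = MeasurableEquiv.finTwoArrow ⁻¹' stadP τ := by
    ext z
    rw [mem_stad_iff hτ]
    simp [stadP, MeasurableEquiv.finTwoArrow]
  rw [h, (volume_preserving_finTwoArrow ℝ).measure_preimage
    (isClosed_stadP τ).measurableSet.nullMeasurableSet, volume_stadP hτ]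

/-- The quadratic form adjoint to a Gram matrix. -/
def Q (pp qq pq x y : ℝ) : ℝ := qq * x ^ 2 - 2 * pq * x * y + pp * y ^ 2

lemma Q_nonneg {pp qq pq : ℝ} (hp : 0 < pp) (hD : 0 < pp * qq - pq ^ 2) (x y : ℝ) :
    0 ≤ Q pp qq pq x y := by
  unfold Q
  have h : pp * (qq * x ^ 2 - 2 * pq * x * y + pp * y ^ 2) =
      (pp * y - pq * x) ^ 2 + (pp * qq - pq ^ 2) * x ^ 2 := by ring
  have h2 : 0 ≤ pp * (qq * x ^ 2 - 2 * pq * x * y + pp * y ^ 2) := by rw [h]; positivity
  exact nonneg_of_mul_nonneg_right h2 hp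

/-- `f1` with `Q f1 = D` and `τ f1 = c`. -/
lemma exists_f1 {pp qq pq : ℝ} (hp : 0 < pp) (hD : 0 < pp * qq - pq ^ 2) (c0 c1 : ℝ) :
    ∃ f0 f1 : ℝ, Q pp qq pq f0 f1 = pp * qq - pq ^ 2 ∧
      √(Q pp qq pq c0 c1 / (pp * qq - pq ^ 2)) * f0 = c0 ∧
      √(Q pp qq pq c0 c1 / (pp * qq - pq ^ 2)) * f1 = c1 := by
  set D := pp * qq - pq ^ 2 with hDdef
  have hq : 0 < qq := by
    by_contra hq
    push Not at hq
    have : pp * qq ≤ 0 := mul_nonpos_of_nonneg_of_nonpos hp.le hq
    nlinarith [sq_nonneg pq]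
  have hQ := Q_nonneg hp hD c0 c1
  rcases hQ.eq_or_lt with h | h
  · have h' : pp * Q pp qq pq c0 c1 = (pp * c1 - pq * c0) ^ 2 + D * c0 ^ 2 := by
      simp only [Q, hDdef]; ring
    rw [← h, mul_zero] at h'
    have hc0 : c0 = 0 := by
      have : D * c0 ^ 2 = 0 := by nlinarith [sq_nonneg (pp * c1 - pq * c0), mul_nonneg hD.le (sq_nonneg c0)]
      have := (mul_eq_zero.1 this).resolve_left hD.ne'
      exact pow_eq_zero_iff (two_ne_zero) |>.1 this
    have hc1 : c1 = 0 := by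
      rw [hc0] at h'
      have : (pp * c1) ^ 2 = 0 := by nlinarith
      have := pow_eq_zero_iff (two_ne_zero) |>.1 this
      exact (mul_eq_zero.1 this).resolve_left hp.ne'
    refine ⟨√(D / qq), 0, ?_, ?_, ?_⟩
    · simp only [Q]
      rw [Real.sq_sqrt (by positivity)]
      field_simp
      ring
    · rw [hc0, hc1]; simp [Q]
    · rw [hc1]; simp
  · set τ := √(Q pp qq pq c0 c1 / D) with hτ
    have hτ0 : 0 < τ := Real.sqrt_pos.2 (div_pos h hD)
    have hτ2 : τ ^ 2 = Q pp qq pq c0 c1 / D := Real.sq_sqrt (div_pos h hD).le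
    refine ⟨c0 / τ, c1 / τ, ?_, by field_simp, by field_simp⟩
    have : Q pp qq pq (c0 / τ) (c1 / τ) = Q pp qq pq c0 c1 / τ ^ 2 := by
      simp only [Q]; field_simp
    rw [this, hτ2]
    field_simp

/-- The sum of the segment `[-c, c]` and the ellipse `Q ≤ D`. -/
def body (pp qq pq c0 c1 : ℝ) : Set (Fin 2 → ℝ) :=
  {z | ∃ s : ℝ, |s| ≤ 1 ∧ Q pp qq pq (z 0 - s * c0) (z 1 - s * c1) ≤ pp * qq - pq ^ 2}

lemma exists_map {pp qq pq : ℝ} (hp : 0 < pp) (hD : 0 < pp * qq - pq ^ 2) (c0 c1 : ℝ) :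
    ∃ a b c d : ℝ, a * d - b * c = √(pp * qq - pq ^ 2) ∧
      (∀ x y : ℝ, Q pp qq pq (a * x + b * y) (c * x + d * y) =
        (pp * qq - pq ^ 2) * (x ^ 2 + y ^ 2)) ∧
      √(Q pp qq pq c0 c1 / (pp * qq - pq ^ 2)) * a = c0 ∧
      √(Q pp qq pq c0 c1 / (pp * qq - pq ^ 2)) * c = c1 := by
  obtain ⟨f0, f1, hf, h0, h1⟩ := exists_f1 hp hD c0 c1
  set D := pp * qq - pq ^ 2 with hDdef
  have hs : √D ^ 2 = D := Real.sq_sqrt hD.le
  have hs0 : 0 < √D := Real.sqrt_pos.2 hD
  set s := √D with hsdef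
  refine ⟨f0, -(-pq * f0 + pp * f1) / s, f1, (qq * f0 - pq * f1) / s, ?_, ?_, h0, h1⟩
  · field_simp
    have : f0 * (qq * f0 - pq * f1) + (-pq * f0 + pp * f1) * f1 = D := by
      rw [← hf]; simp only [Q]; ring
    rw [hs]
    linarith
  · intro x y
    have e : Q pp qq pq (f0 * x + -(-pq * f0 + pp * f1) / s * y)
        (f1 * x + (qq * f0 - pq * f1) / s * y) =
        x ^ 2 * Q pp qq pq f0 f1 + y ^ 2 / s ^ 2 * (D * Q pp qq pq f0 f1) := by
      simp only [Q, hDdef]
      field_simp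
      ring
    rw [e, hf, hs]
    field_simp

lemma volume_body {pp qq pq : ℝ} (hp : 0 < pp) (hD : 0 < pp * qq - pq ^ 2) (c0 c1 : ℝ) :
    volume (body pp qq pq c0 c1) = ENNReal.ofReal (√(pp * qq - pq ^ 2) *
      (π + 4 * √(Q pp qq pq c0 c1 / (pp * qq - pq ^ 2)))) := by
  obtain ⟨a, b, c, d, hdet, hQ, h0, h1⟩ := exists_map hp hD c0 c1
  set D := pp * qq - pq ^ 2 with hDdef
  have hs0 : 0 < √D := Real.sqrt_pos.2 hD
  set τ := √(Q pp qq pq c0 c1 / D) with hτ
  set L : (Fin 2 → ℝ) →ₗ[ℝ] (Fin 2 → ℝ) := Matrix.toLin' !![a, b; c, d] with hL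
  have hL0 : ∀ y : Fin 2 → ℝ, L y 0 = a * y 0 + b * y 1 := by
    intro y; simp [hL, Matrix.toLin'_apply, Matrix.mulVec, dotProduct, Fin.sum_univ_two]
  have hL1 : ∀ y : Fin 2 → ℝ, L y 1 = c * y 0 + d * y 1 := by
    intro y; simp [hL, Matrix.toLin'_apply, Matrix.mulVec, dotProduct, Fin.sum_univ_two]
  have hLdet : LinearMap.det L = √D := by
    rw [hL, LinearMap.det_toLin', Matrix.det_fin_two_of, hdet]
  have himg : body pp qq pq c0 c1 = L '' stad τ := by
    ext z
    simp only [body, mem_ofPred_eq, mem_image, stad]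
    constructor
    · rintro ⟨s, hs, h⟩
      -- invert
      refine ⟨![(d * z 0 - b * z 1) / √D, (a * z 1 - c * z 0) / √D], ⟨s, hs, ?_⟩, ?_⟩
      · simp only [Matrix.cons_val_zero, Matrix.cons_val_one]
        set x := (d * z 0 - b * z 1) / √D with hx
        set y := (a * z 1 - c * z 0) / √D with hy
        have e0 : a * (x - s * τ) + b * y = z 0 - s * c0 := by
          rw [← h0, hx, hy]
          field_simp
          rw [← hdet]; ring
        have e1 : c * (x - s * τ) + d * y = z 1 - s * c1 := by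
          rw [← h1, hx, hy]
          field_simp
          rw [← hdet]; ring
        have := hQ (x - s * τ) y
        rw [e0, e1] at this
        rw [this] at h
        have h3 : D * ((x - s * τ) ^ 2 + y ^ 2) ≤ D * 1 := by linarith
        exact le_of_mul_le_mul_left h3 hD
      · ext i
        fin_cases i
        · simp only [Fin.zero_eta, Fin.isValue]
          rw [hL0]
          simp only [Matrix.cons_val_zero, Matrix.cons_val_one]
          field_simp
          rw [← hdet]; ring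
        · simp only [Fin.mk_one, Fin.isValue]
          rw [hL1]
          simp only [Matrix.cons_val_zero, Matrix.cons_val_one]
          field_simp
          rw [← hdet]; ring
    · rintro ⟨y, ⟨s, hs, h⟩, rfl⟩
      refine ⟨s, hs, ?_⟩
      rw [hL0, hL1]
      have e0 : a * y 0 + b * y 1 - s * c0 = a * (y 0 - s * τ) + b * y 1 := by
        rw [← h0]; ring
      have e1 : c * y 0 + d * y 1 - s * c1 = c * (y 0 - s * τ) + d * y 1 := by
        rw [← h1]; ring
      rw [e0, e1, hQ]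
      nlinarith
  rw [himg, Measure.addHaar_image_linearMap, hLdet, abs_of_pos hs0,
    volume_stad (Real.sqrt_nonneg _), ← ENNReal.ofReal_mul hs0.le]

end Pool.Agent.H73.CE
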