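import Mathlib
import Pool.Agent.H73.CE.Stad

set_option autoImplicit false
open MeasureTheory Set Real

namespace Pool.Agent.H73.CE

/-- The cylinder `[-1,1] × B^m`. -/
def cyl (m : ℕ) : Set (Fin (m + 1) → ℝ) := {x | |x 0| ≤ 1 ∧ ∑ t : Fin m, x t.succ ^ 2 ≤ 1}

/-- dot product of the tails -/
def dt {m : ℕ} (a b : Fin (m + 1) → ℝ) : ℝ := ∑ t : Fin m, a t.succ * b t.succ

lemma dt_self_nonneg {m : ℕ} (a : Fin (m + 1) → ℝ) : 0 ≤ dt a a :=
  Finset.sum_nonneg fun _ _ => mul_self_nonneg _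

lemma mulVec_apply {m k : ℕ} (A : Fin k → Fin (m + 1) → ℝ) (x : Fin (m + 1) → ℝ) (i : Fin k) :
    (Matrix.of A).mulVec x i = A i 0 * x 0 + dt (A i) x := by
  simp [Matrix.mulVec, dotProduct, Fin.sum_univ_succ, dt]

lemma key_sos {m : ℕ} (p q w : Fin (m + 1) → ℝ)
    (hD : 0 < dt p p * dt q q - dt p q ^ 2) :
    Q (dt p p) (dt q q) (dt p q) (dt p w) (dt q w) ≤ (dt p p * dt q q - dt p q ^ 2) * dt w w := by
  set pp := dt p p with hpp
  set qq := dt q q with hqq
  set pq := dt p q with hpq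
  set c0 := dt p w with hc0
  set c1 := dt q w with hc1
  set D := pp * qq - pq ^ 2 with hDD
  set α := qq * c0 - pq * c1 with hα
  set β := pp * c1 - pq * c0 with hβ
  have h : 0 ≤ ∑ t : Fin m, (D * w t.succ - α * p t.succ - β * q t.succ) ^ 2 :=
    Finset.sum_nonneg fun _ _ => sq_nonneg _
  have e : ∑ t : Fin m, (D * w t.succ - α * p t.succ - β * q t.succ) ^ 2 =
      D ^ 2 * dt w w + α ^ 2 * pp + β ^ 2 * qq - 2 * D * α * c0 - 2 * D * β * c1 +
        2 * α * β * pq := by
    simp only [hpp, hqq, hpq, hc0, hc1, dt, Finset.mul_sum, ← Finset.sum_add_distrib,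
      ← Finset.sum_sub_distrib]
    apply Finset.sum_congr rfl
    intro t _
    ring
  rw [e] at h
  have e2 : D ^ 2 * dt w w + α ^ 2 * pp + β ^ 2 * qq - 2 * D * α * c0 - 2 * D * β * c1 +
        2 * α * β * pq = D * (D * dt w w - Q pp qq pq c0 c1) := by
    simp only [Q, hα, hβ, hDD]; ring
  rw [e2] at h
  have := nonneg_of_mul_nonneg_right h hD
  linarith

lemma image_two {m : ℕ} (A : Fin 2 → Fin (m + 1) → ℝ)
    (hD : 0 < dt (A 0) (A 0) * dt (A 1) (A 1) - dt (A 0) (A 1) ^ 2) :
    (fun x : Fin (m + 1) → ℝ => (Matrix.of A).mulVec x) '' cyl m =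
      body (dt (A 0) (A 0)) (dt (A 1) (A 1)) (dt (A 0) (A 1)) (A 0 0) (A 1 0) := by
  set p := A 0 with hpdef
  set q := A 1 with hqdef
  ext z
  simp only [mem_image, cyl, mem_ofPred_eq, body]
  constructor
  · rintro ⟨x, ⟨hx0, hx⟩, rfl⟩
    refine ⟨x 0, hx0, ?_⟩
    rw [mulVec_apply, mulVec_apply, ← hpdef, ← hqdef]
    have e0 : p 0 * x 0 + dt p x - x 0 * p 0 = dt p x := by ring
    have e1 : q 0 * x 0 + dt q x - x 0 * q 0 = dt q x := by ring
    rw [e0, e1]
    refine (key_sos p q x hD).trans ?_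
    have : dt x x ≤ 1 := by
      simpa [dt, sq] using hx
    nlinarith
  · rintro ⟨s, hs, h⟩
    set D := dt p p * dt q q - dt p q ^ 2 with hDD
    set c0 := z 0 - s * p 0 with hc0
    set c1 := z 1 - s * q 0 with hc1
    set α := (dt q q * c0 - dt p q * c1) / D with hα
    set β := (dt p p * c1 - dt p q * c0) / D with hβ
    refine ⟨Fin.cons s (fun t => α * p t.succ + β * q t.succ), ⟨by simpa using hs, ?_⟩, ?_⟩
    · simp only [Fin.cons_succ]
      have e : ∑ t : Fin m, (α * p t.succ + β * q t.succ) ^ 2 =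
          α ^ 2 * dt p p + 2 * α * β * dt p q + β ^ 2 * dt q q := by
        simp only [dt, Finset.mul_sum, ← Finset.sum_add_distrib]
        apply Finset.sum_congr rfl
        intro t _
        ring
      rw [e]
      have e2 : α ^ 2 * dt p p + 2 * α * β * dt p q + β ^ 2 * dt q q =
          Q (dt p p) (dt q q) (dt p q) c0 c1 / D := by
        simp only [Q, hα, hβ]
        field_simp
        simp only [hDD]
        ring
      rw [e2]
      exact (div_le_one hD).2 h
    · have dp : ∀ a : Fin (m + 1) → ℝ,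
          dt a (Fin.cons s (fun t => α * p t.succ + β * q t.succ)) = α * dt a p + β * dt a q := by
        intro a
        simp only [dt, Fin.cons_succ, Finset.mul_sum, ← Finset.sum_add_distrib]
        apply Finset.sum_congr rfl
        intro t _
        ring
      have hqp : dt q p = dt p q := by
        simp only [dt]; apply Finset.sum_congr rfl; intro t _; ring
      ext i
      fin_cases i
      · simp only [Fin.zero_eta, Fin.isValue]
        rw [mulVec_apply, dp]
        simp only [Fin.cons_zero, ← hpdef, hα, hβ]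
        field_simp
        simp only [hDD, hc0, hc1]
        ring
      · simp only [Fin.mk_one, Fin.isValue]
        rw [mulVec_apply, dp]
        simp only [Fin.cons_zero, ← hqdef, hα, hβ, hqp]
        field_simp
        simp only [hDD, hc0, hc1]
        ring

lemma det_two {m : ℕ} (A : Fin 2 → Fin (m + 1) → ℝ) :
    (Matrix.of A * (Matrix.of A).transpose).det =
      (dt (A 0) (A 0) * dt (A 1) (A 1) - dt (A 0) (A 1) ^ 2) +
        Q (dt (A 0) (A 0)) (dt (A 1) (A 1)) (dt (A 0) (A 1)) (A 0 0) (A 1 0) := by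
  have h : ∀ i j : Fin 2, (Matrix.of A * (Matrix.of A).transpose) i j =
      A i 0 * A j 0 + dt (A i) (A j) := by
    intro i j
    simp [Matrix.mul_apply, Fin.sum_univ_succ, dt]
  have hqp : dt (A 1) (A 0) = dt (A 0) (A 1) := by
    simp only [dt]; apply Finset.sum_congr rfl; intro t _; ring
  rw [Matrix.det_fin_two, h, h, h, h, hqp]
  simp only [Q]
  ring

lemma det_one {m : ℕ} (A : Fin 1 → Fin (m + 1) → ℝ) :
    (Matrix.of A * (Matrix.of A).transpose).det = A 0 0 ^ 2 + dt (A 0) (A 0) := by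
  have h : ∀ i j : Fin 1, (Matrix.of A * (Matrix.of A).transpose) i j =
      A i 0 * A j 0 + dt (A i) (A j) := by
    intro i j
    simp [Matrix.mul_apply, Fin.sum_univ_succ, dt]
  rw [Matrix.det_fin_one, h]
  ring

lemma dt_sq_le {m : ℕ} (a b : Fin (m + 1) → ℝ) : dt a b ^ 2 ≤ dt a a * dt b b := by
  have := Finset.sum_mul_sq_le_sq_mul_sq Finset.univ (fun t : Fin m => a t.succ)
    (fun t : Fin m => b t.succ)
  simpa [dt, sq] using this

lemma image_one {m : ℕ} (A : Fin 1 → Fin (m + 1) → ℝ) (hp : 0 < dt (A 0) (A 0)) :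
    (fun x : Fin (m + 1) → ℝ => (Matrix.of A).mulVec x) '' cyl m =
      Icc (fun _ => -(|A 0 0| + √(dt (A 0) (A 0)))) (fun _ => |A 0 0| + √(dt (A 0) (A 0))) := by
  set p := A 0 with hpdef
  set r := √(dt p p) with hr
  have hr0 : 0 < r := Real.sqrt_pos.2 hp
  have hr2 : r ^ 2 = dt p p := Real.sq_sqrt hp.le
  ext z
  simp only [mem_image, cyl, mem_ofPred_eq, mem_Icc, Pi.le_def]
  constructor
  · rintro ⟨x, ⟨hx0, hx⟩, rfl⟩
    have h1 : |p 0 * x 0 + dt p x| ≤ |p 0| + r := by
      refine (abs_add_le _ _).trans ?_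
      have ha : |p 0 * x 0| ≤ |p 0| := by
        rw [abs_mul]; nlinarith [abs_nonneg (p 0), abs_nonneg (x 0)]
      have hb : |dt p x| ≤ r := by
        apply Real.abs_le_sqrt
        refine (dt_sq_le p x).trans ?_
        have : dt x x ≤ 1 := by simpa [dt, sq] using hx
        nlinarith
      linarith
    rw [abs_le] at h1
    constructor <;> intro i <;> rw [Subsingleton.elim i 0, mulVec_apply, ← hpdef]
    · exact h1.1
    · exact h1.2
  · rintro ⟨h1, h2⟩
    have h1 := h1 0
    have h2 := h2 0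
    set h := |p 0| + r with hh
    have hh0 : 0 < h := by positivity
    set u := z 0 / h with hu
    have hu1 : |u| ≤ 1 := by
      rw [hu, abs_div, abs_of_pos hh0, div_le_one hh0, abs_le]
      exact ⟨h1, h2⟩
    have hu2 : u ^ 2 ≤ 1 := by rwa [sq_le_one_iff_abs_le_one]
    refine ⟨Fin.cons (u * SignType.sign (p 0)) (fun t => u / r * p t.succ), ⟨?_, ?_⟩, ?_⟩
    · simp only [Fin.cons_zero]
      rw [abs_mul]
      have : |((SignType.sign (p 0) : SignType) : ℝ)| ≤ 1 := by
        rcases lt_trichotomy (p 0) 0 with h | h | h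
        · simp [sign_neg h]
        · simp [h]
        · simp [sign_pos h]
      nlinarith [abs_nonneg u, abs_nonneg ((SignType.sign (p 0) : SignType) : ℝ)]
    · simp only [Fin.cons_succ]
      have e : ∑ t : Fin m, (u / r * p t.succ) ^ 2 = (u / r) ^ 2 * dt p p := by
        simp only [dt, Finset.mul_sum]
        apply Finset.sum_congr rfl
        intro t _
        ring
      rw [e, ← hr2]
      field_simp
      exact hu2
    · ext i
      rw [Subsingleton.elim i 0, mulVec_apply, ← hpdef]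
      have dp : dt p (Fin.cons (u * SignType.sign (p 0)) (fun t => u / r * p t.succ)) =
          u / r * dt p p := by
        simp only [dt, Fin.cons_succ, Finset.mul_sum]
        apply Finset.sum_congr rfl
        intro t _
        ring
      rw [dp, ← hr2]
      simp only [Fin.cons_zero]
      have hsg : p 0 * (SignType.sign (p 0) : ℝ) = |p 0| := self_mul_sign (p 0)
      have : p 0 * (u * (SignType.sign (p 0) : ℝ)) + u / r * r ^ 2 = u * (|p 0| + r) := by
        rw [← hsg]; field_simp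
      rw [this, ← hh, hu]
      field_simp

lemma volume_image_one {m : ℕ} (A : Fin 1 → Fin (m + 1) → ℝ) (hp : 0 < dt (A 0) (A 0)) :
    volume ((fun x : Fin (m + 1) → ℝ => (Matrix.of A).mulVec x) '' cyl m) =
      ENNReal.ofReal (2 * (|A 0 0| + √(dt (A 0) (A 0)))) := by
  rw [image_one A hp, Real.volume_Icc_pi, Fin.prod_univ_one]
  congr 1
  ring

lemma volume_image_two {m : ℕ} (A : Fin 2 → Fin (m + 1) → ℝ)
    (hp : 0 < dt (A 0) (A 0))
    (hD : 0 < dt (A 0) (A 0) * dt (A 1) (A 1) - dt (A 0) (A 1) ^ 2) :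
    volume ((fun x : Fin (m + 1) → ℝ => (Matrix.of A).mulVec x) '' cyl m) =
      ENNReal.ofReal (√(dt (A 0) (A 0) * dt (A 1) (A 1) - dt (A 0) (A 1) ^ 2) *
      (π + 4 * √(Q (dt (A 0) (A 0)) (dt (A 1) (A 1)) (dt (A 0) (A 1)) (A 0 0) (A 1 0) /
        (dt (A 0) (A 0) * dt (A 1) (A 1) - dt (A 0) (A 1) ^ 2)))) := by
  rw [image_two A hD, volume_body hp hD]

lemma isCompact_cyl (m : ℕ) : IsCompact (cyl m) := by
  have hc : IsClosed (cyl m) := by
    have h1 : IsClosed {x : Fin (m + 1) → ℝ | |x 0| ≤ 1} := isClosed_le (by fun_prop) (by fun_prop)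
    have h2 : IsClosed {x : Fin (m + 1) → ℝ | ∑ t : Fin m, x t.succ ^ 2 ≤ 1} :=
      isClosed_le (by fun_prop) (by fun_prop)
    exact h1.inter h2
  have hb : cyl m ⊆ Icc (fun _ => -1) (fun _ => 1) := by
    rintro x ⟨h0, h⟩
    have key : ∀ i, |x i| ≤ 1 := by
      intro i
      refine Fin.cases h0 (fun t => ?_) i
      have : x t.succ ^ 2 ≤ 1 :=
        (Finset.single_le_sum (f := fun t : Fin m => x t.succ ^ 2)
          (fun _ _ => sq_nonneg _) (Finset.mem_univ t)).trans h
      rwa [sq_le_one_iff_abs_le_one] at this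
    exact ⟨fun i => (abs_le.1 (key i)).1, fun i => (abs_le.1 (key i)).2⟩
  exact (isCompact_Icc).of_isClosed_subset hc hb

lemma convex_cyl (m : ℕ) : Convex ℝ (cyl m) := by
  rintro x ⟨hx0, hx⟩ y ⟨hy0, hy⟩ a b ha hb hab
  refine ⟨?_, ?_⟩
  · simp only [Pi.add_apply, Pi.smul_apply, smul_eq_mul]
    refine (abs_add_le _ _).trans ?_
    rw [abs_mul, abs_mul, abs_of_nonneg ha, abs_of_nonneg hb]
    nlinarith
  · simp only [Pi.add_apply, Pi.smul_apply, smul_eq_mul]
    have : ∀ t : Fin m, (a * x t.succ + b * y t.succ) ^ 2 ≤ a * x t.succ ^ 2 + b * y t.succ ^ 2 := by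
      intro t
      have hb' : b = 1 - a := by linarith
      subst hb'
      nlinarith [mul_nonneg (mul_nonneg ha hb) (sq_nonneg (x t.succ - y t.succ))]
    refine (Finset.sum_le_sum fun t _ => this t).trans ?_
    rw [Finset.sum_add_distrib, ← Finset.mul_sum, ← Finset.mul_sum]
    nlinarith

lemma interior_cyl (m : ℕ) : (interior (cyl m)).Nonempty := by
  have h1 : IsOpen {x : Fin (m + 1) → ℝ | |x 0| < 1} := isOpen_lt (by fun_prop) (by fun_prop)
  have h2 : IsOpen {x : Fin (m + 1) → ℝ | ∑ t : Fin m, x t.succ ^ 2 < 1} :=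
    isOpen_lt (by fun_prop) (by fun_prop)
  refine ⟨0, mem_interior.2 ⟨_, ?_, h1.inter h2, ?_⟩⟩
  · rintro x ⟨ha, hb⟩
    exact ⟨le_of_lt ha, le_of_lt hb⟩
  · simp

end Pool.Agent.H73.CE
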