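import Mathlib
import Pool.Agent.H73.CE.Img

set_option autoImplicit false
open MeasureTheory Set Real ProbabilityTheory

namespace Pool.Agent.H73.CE

/-- the standard Gaussian measure on the line -/
noncomputable abbrev ga : Measure ℝ := gaussianReal 0 1

lemma integrable_pow_gamma (k : ℕ) : Integrable (fun x : ℝ => x ^ k) ga := by
  have h := memLp_id_gaussianReal (μ := 0) (v := 1) (k : NNReal)
  rcases Nat.eq_zero_or_pos k with rfl | hk
  · simp
  · have := h.integrable_norm_pow (p := k) hk.ne'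
    refine (integrable_norm_iff (by fun_prop)).1 ?_
    refine this.congr ?_
    filter_upwards with x
    simp

lemma integral_sq_gamma : ∫ x, x ^ 2 ∂ga = 1 := by
  have h := variance_fun_id_gaussianReal (μ := 0) (v := 1)
  rw [variance_eq_sub] at h
  · simpa using h
  · exact memLp_id_gaussianReal' 2 (by simp)

lemma ga_integral (f : ℝ → ℝ) :
    ∫ x, f x ∂ga = ∫ x, (√(2 * π))⁻¹ * rexp (-(x ^ 2 / 2)) * f x := by
  rw [integral_gaussianReal_eq_integral_smul (by simp)]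
  apply integral_congr_ae
  filter_upwards with x
  have h : gaussianPDFReal 0 1 x = (√(2 * π))⁻¹ * rexp (-(x ^ 2 / 2)) := by
    simp only [gaussianPDFReal, NNReal.coe_one, mul_one, sub_zero]
    congr 2
    ring
  rw [h, smul_eq_mul]

lemma integral_Ioi_pow_exp (k : ℕ) {κ : ℝ} (hκ : 0 < κ) :
    ∫ x in Ioi (0 : ℝ), x ^ k * rexp (-(κ * x)) = k.factorial / κ ^ (k + 1) := by
  have h := Real.integral_rpow_mul_exp_neg_mul_Ioi (a := (k + 1 : ℝ)) (r := κ) (by positivity) hκ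
  rw [Real.Gamma_nat_eq_factorial] at h
  have e : (1 / κ) ^ ((k : ℝ) + 1) = 1 / κ ^ (k + 1) := by
    rw [← Nat.cast_succ, Real.rpow_natCast, one_div, one_div, inv_pow]
  rw [e] at h
  have e2 : ∫ x in Ioi (0 : ℝ), x ^ k * rexp (-(κ * x)) =
      ∫ x in Ioi (0 : ℝ), x ^ ((k : ℝ) + 1 - 1) * rexp (-(κ * x)) := by
    apply setIntegral_congr_fun measurableSet_Ioi
    intro x hx
    simp
  rw [e2, h]
  ring

lemma integrableOn_Ioi_pow_exp (k : ℕ) {κ : ℝ} (hκ : 0 < κ) :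
    IntegrableOn (fun x : ℝ => x ^ k * rexp (-(κ * x))) (Ioi 0) := by
  by_contra h
  have := integral_undef h
  rw [integral_Ioi_pow_exp k hκ] at this
  have : (0 : ℝ) < k.factorial / κ ^ (k + 1) := by positivity
  linarith

lemma integral_four_gamma : ∫ x, x ^ 4 ∂ga = 3 := by
  rw [ga_integral]
  have h := integral_rpow_mul_exp_neg_mul_rpow (p := 2) (q := 4) (b := 1 / 2) (by norm_num)
    (by norm_num) (by norm_num)
  have e : ∫ x : ℝ, (√(2 * π))⁻¹ * rexp (-(x ^ 2 / 2)) * x ^ 4 =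
      ∫ x : ℝ, (fun y => (√(2 * π))⁻¹ * rexp (-(y ^ 2 / 2)) * y ^ 4) |x| := by
    apply integral_congr_ae
    filter_upwards with x
    have h4 : |x| ^ 4 = x ^ 4 := by
      calc |x| ^ 4 = (|x| ^ 2) ^ 2 := by ring
        _ = x ^ 4 := by rw [sq_abs]; ring
    simp only [sq_abs, h4]
  rw [e, integral_comp_abs (f := fun y => (√(2 * π))⁻¹ * rexp (-(y ^ 2 / 2)) * y ^ 4)]
  have e2 : ∫ x in Ioi (0 : ℝ), (√(2 * π))⁻¹ * rexp (-(x ^ 2 / 2)) * x ^ 4 =
      (√(2 * π))⁻¹ * ∫ x in Ioi (0 : ℝ), x ^ (4 : ℝ) * rexp (-(1 / 2) * x ^ (2 : ℝ)) := by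
    rw [← integral_const_mul]
    apply setIntegral_congr_fun measurableSet_Ioi
    intro x hx
    have hx0 : (0 : ℝ) < x := hx
    have h1 : x ^ (4 : ℝ) = x ^ 4 := by
      rw [← Real.rpow_natCast]; norm_num
    have h2 : x ^ (2 : ℝ) = x ^ 2 := by
      rw [← Real.rpow_natCast]; norm_num
    simp only [h1, h2]
    ring_nf
  rw [e2, h]
  have hG : Real.Gamma ((4 + 1) / 2) = 3 / 4 * √π := by
    have h1 : ((4 : ℝ) + 1) / 2 = (1 / 2 + 1) + 1 := by norm_num
    rw [h1, Real.Gamma_add_one (by norm_num), Real.Gamma_add_one (by norm_num),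
      Real.Gamma_one_half_eq]
    ring
  rw [hG]
  have hpow : (1 / 2 : ℝ) ^ (-(4 + 1 : ℝ) / 2) = 4 * √2 := by
    rw [one_div, Real.inv_rpow (by norm_num), ← Real.rpow_neg (by norm_num)]
    have : (-(-(4 + 1 : ℝ) / 2)) = 2 + 1 / 2 := by norm_num
    rw [this, Real.rpow_add (by norm_num), ← Real.sqrt_eq_rpow]
    norm_num
  rw [hpow, Real.sqrt_mul (by norm_num)]
  have h2 : √2 ≠ 0 := by positivity
  have h3 : √π ≠ 0 := by positivity
  field_simp

lemma integral_abs_pow_exp (k : ℕ) {κ : ℝ} (hκ : 0 < κ) :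
    ∫ x : ℝ, |x| ^ k * rexp (-(κ * |x|)) = 2 * (k.factorial / κ ^ (k + 1)) := by
  rw [integral_comp_abs (f := fun x => x ^ k * rexp (-(κ * x))), integral_Ioi_pow_exp k hκ]

lemma integrable_abs_pow_exp (k : ℕ) {κ : ℝ} (hκ : 0 < κ) :
    Integrable (fun x : ℝ => |x| ^ k * rexp (-(κ * |x|))) := by
  by_contra h
  have := integral_undef h
  rw [integral_abs_pow_exp k hκ] at this
  have : (0 : ℝ) < 2 * (k.factorial / κ ^ (k + 1)) := by positivity
  linarith

lemma inner_lower {κ : ℝ} (hκ : 0 < κ) :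
    2 / √(2 * π) * (1 / κ - 1 / κ ^ 3) ≤ ∫ s, rexp (-(κ * |s|)) ∂ga := by
  rw [ga_integral]
  have hI0 := integrable_abs_pow_exp 0 hκ
  have hI2 := integrable_abs_pow_exp 2 hκ
  have h0 := integral_abs_pow_exp 0 hκ
  have h2 := integral_abs_pow_exp 2 hκ
  have hc : 0 < (√(2 * π))⁻¹ := by positivity
  have e : 2 / √(2 * π) * (1 / κ - 1 / κ ^ 3) =
      ∫ x : ℝ, (√(2 * π))⁻¹ * (|x| ^ 0 * rexp (-(κ * |x|)) -
        1 / 2 * (|x| ^ 2 * rexp (-(κ * |x|)))) := by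
    rw [integral_const_mul, integral_sub hI0 (hI2.const_mul _), integral_const_mul, h0, h2]
    norm_num [Nat.factorial]
    ring
  rw [e]
  apply integral_mono
  · exact (hI0.sub (hI2.const_mul _)).const_mul _
  · have : Integrable (fun x : ℝ => (√(2 * π))⁻¹ * (|x| ^ 0 * rexp (-(κ * |x|)))) :=
      hI0.const_mul _
    refine this.mono (by fun_prop) ?_
    filter_upwards with x
    simp only [pow_zero, one_mul, norm_mul, Real.norm_eq_abs, abs_exp]
    have : rexp (-(x ^ 2 / 2)) ≤ 1 := by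
      rw [Real.exp_le_one_iff]
      have := sq_nonneg x
      linarith
    have h1 : 0 ≤ |(√(2 * π))⁻¹| := abs_nonneg _
    have h2 : 0 < rexp (-(κ * |x|)) := Real.exp_pos _
    calc |(√(2 * π))⁻¹| * rexp (-(x ^ 2 / 2)) * rexp (-(κ * |x|))
        ≤ |(√(2 * π))⁻¹| * 1 * rexp (-(κ * |x|)) := by gcongr
      _ = _ := by ring
  · intro x
    simp only [pow_zero, one_mul, sq_abs]
    have h1 : 1 - x ^ 2 / 2 ≤ rexp (-(x ^ 2 / 2)) := by
      have := Real.add_one_le_exp (-(x ^ 2 / 2))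
      linarith
    have h2 : 0 < rexp (-(κ * |x|)) := Real.exp_pos _
    have : (√(2 * π))⁻¹ * (rexp (-(κ * |x|)) - 1 / 2 * (x ^ 2 * rexp (-(κ * |x|)))) =
      (√(2 * π))⁻¹ * (1 - x ^ 2 / 2) * rexp (-(κ * |x|)) := by ring
    rw [this]
    gcongr

/-- moments of the squared norm -/
lemma pi_moments (m : ℕ) :
    Integrable (fun x : Fin m → ℝ => ∑ i, x i ^ 2) (Measure.pi fun _ => ga) ∧
    ∫ x : Fin m → ℝ, ∑ i, x i ^ 2 ∂(Measure.pi fun _ => ga) = m ∧
    Integrable (fun x : Fin m → ℝ => (∑ i, x i ^ 2) ^ 2) (Measure.pi fun _ => ga) ∧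
    ∫ x : Fin m → ℝ, (∑ i, x i ^ 2) ^ 2 ∂(Measure.pi fun _ => ga) = m * (m + 2) := by
  induction m with
  | zero => simp
  | succ m ih =>
    obtain ⟨i1, e1, i2, e2⟩ := ih
    have mp := (measurePreserving_piFinSuccAbove (fun _ : Fin (m + 1) => ga) 0).symm
    have a2 := integrable_pow_gamma 2
    have a4 := integrable_pow_gamma 4
    set ν : Measure (Fin m → ℝ) := Measure.pi fun _ => ga with hν
    have key1 : ∀ z : ℝ × (Fin m → ℝ),
        ∑ i, ((MeasurableEquiv.piFinSuccAbove (fun _ : Fin (m + 1) => ℝ) 0).symm z) i ^ 2 =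
          z.1 ^ 2 + ∑ i, z.2 i ^ 2 := by
      intro z
      simp [MeasurableEquiv.piFinSuccAbove_symm_apply, Fin.insertNthEquiv, Fin.sum_univ_succ]
    have f1 : Integrable (fun z : ℝ × (Fin m → ℝ) => z.1 ^ 2) (ga.prod ν) := a2.comp_fst ν
    have f1' : Integrable (fun z : ℝ × (Fin m → ℝ) => z.1 ^ 4) (ga.prod ν) := a4.comp_fst ν
    have f2 : Integrable (fun z : ℝ × (Fin m → ℝ) => ∑ i, z.2 i ^ 2) (ga.prod ν) := i1.comp_snd ga
    have f2' : Integrable (fun z : ℝ × (Fin m → ℝ) => (∑ i, z.2 i ^ 2) ^ 2) (ga.prod ν) :=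
      i2.comp_snd ga
    have f3 : Integrable (fun z : ℝ × (Fin m → ℝ) => z.1 ^ 2 * ∑ i, z.2 i ^ 2) (ga.prod ν) :=
      a2.mul_prod i1
    have g1 : ∫ z : ℝ × (Fin m → ℝ), z.1 ^ 2 ∂(ga.prod ν) = 1 := by
      have := integral_prod_mul (μ := ga) (ν := ν) (fun x : ℝ => x ^ 2) (fun _ => (1 : ℝ))
      simpa [integral_sq_gamma] using this
    have g1' : ∫ z : ℝ × (Fin m → ℝ), z.1 ^ 4 ∂(ga.prod ν) = 3 := by
      have := integral_prod_mul (μ := ga) (ν := ν) (fun x : ℝ => x ^ 4) (fun _ => (1 : ℝ))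
      simpa [integral_four_gamma] using this
    have g2 : ∫ z : ℝ × (Fin m → ℝ), ∑ i, z.2 i ^ 2 ∂(ga.prod ν) = m := by
      have := integral_prod_mul (μ := ga) (ν := ν) (fun _ => (1 : ℝ)) (fun y => ∑ i, y i ^ 2)
      simpa [e1] using this
    have g2' : ∫ z : ℝ × (Fin m → ℝ), (∑ i, z.2 i ^ 2) ^ 2 ∂(ga.prod ν) = m * (m + 2) := by
      have := integral_prod_mul (μ := ga) (ν := ν) (fun _ => (1 : ℝ)) (fun y => (∑ i, y i ^ 2) ^ 2)
      simpa [e2] using this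
    have g3 : ∫ z : ℝ × (Fin m → ℝ), z.1 ^ 2 * ∑ i, z.2 i ^ 2 ∂(ga.prod ν) = m := by
      rw [integral_prod_mul (μ := ga) (ν := ν) (fun x : ℝ => x ^ 2) (fun y => ∑ i, y i ^ 2),
        integral_sq_gamma, e1, one_mul]
    have key2 : ∀ z : ℝ × (Fin m → ℝ),
        (∑ i, ((MeasurableEquiv.piFinSuccAbove (fun _ : Fin (m + 1) => ℝ) 0).symm z) i ^ 2) ^ 2 =
          z.1 ^ 4 + 2 * (z.1 ^ 2 * ∑ i, z.2 i ^ 2) + (∑ i, z.2 i ^ 2) ^ 2 := by
      intro z
      rw [key1]; ring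
    refine ⟨?_, ?_, ?_, ?_⟩
    · rw [← mp.integrable_comp_emb (MeasurableEquiv.measurableEmbedding _)]
      refine (f1.add f2).congr ?_
      filter_upwards with z
      simp only [Function.comp, key1, Pi.add_apply]
    · rw [← mp.integral_comp']
      simp only [key1]
      rw [integral_add f1 f2, g1, g2]
      push_cast; ring
    · rw [← mp.integrable_comp_emb (MeasurableEquiv.measurableEmbedding _)]
      refine ((f1'.add (f3.const_mul 2)).add f2').congr ?_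
      filter_upwards with z
      simp only [Function.comp, key2, Pi.add_apply]
    · rw [← mp.integral_comp']
      simp only [key2]
      have f4 : Integrable (fun z : ℝ × (Fin m → ℝ) => z.1 ^ 4 + 2 * (z.1 ^ 2 * ∑ i, z.2 i ^ 2))
        (ga.prod ν) := f1'.add (f3.const_mul 2)
      rw [integral_add f4 f2', integral_add f1' (f3.const_mul 2),
        integral_const_mul, g1', g3, g2']
      push_cast; ring

lemma ga_le : ga ≤ ENNReal.ofReal (√(2 * π))⁻¹ • (volume : Measure ℝ) := by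
  rw [ga, gaussianReal_of_var_ne_zero 0 (by simp), ← withDensity_const]
  apply withDensity_mono
  filter_upwards with x
  unfold gaussianPDF
  apply ENNReal.ofReal_le_ofReal
  simp only [gaussianPDFReal, NNReal.coe_one, mul_one, sub_zero]
  have h : rexp (-x ^ 2 / 2) ≤ 1 := by
    rw [Real.exp_le_one_iff]
    have := sq_nonneg x
    linarith
  have h2 : 0 < (√(2 * π))⁻¹ := by positivity
  nlinarith

lemma lintegral_ga_le (f : ℝ → ENNReal) :
    ∫⁻ x, f x ∂ga ≤ ENNReal.ofReal (√(2 * π))⁻¹ * ∫⁻ x, f x := by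
  calc ∫⁻ x, f x ∂ga ≤ ∫⁻ x, f x ∂(ENNReal.ofReal (√(2 * π))⁻¹ • (volume : Measure ℝ)) :=
        lintegral_mono' ga_le le_rfl
    _ = _ := by rw [lintegral_smul_measure, smul_eq_mul]

lemma lint2 {κ : ℝ} (hκ : 0 < κ) :
    ∫⁻ z : ℝ × ℝ, ENNReal.ofReal (rexp (-(κ * √(z.1 ^ 2 + z.2 ^ 2)))) =
      ENNReal.ofReal (2 * π / κ ^ 2) := by
  rw [← lintegral_comp_polarCoord_symm]
  have h1 : ∫⁻ (p : ℝ × ℝ) in polarCoord.target, ENNReal.ofReal p.1 •
      ENNReal.ofReal (rexp (-(κ * √((polarCoord.symm p).1 ^ 2 + (polarCoord.symm p).2 ^ 2)))) =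
      ∫⁻ (p : ℝ × ℝ) in Ioi (0 : ℝ) ×ˢ Ioo (-π) π,
        ENNReal.ofReal (p.1 ^ 1 * rexp (-(κ * p.1))) * 1 := by
    rw [polarCoord_target]
    apply setLIntegral_congr_fun (measurableSet_Ioi.prod measurableSet_Ioo)
    rintro ⟨r, θ⟩ ⟨hr, _⟩
    have hr : 0 < r := hr
    simp only [polarCoord_symm_apply, smul_eq_mul, pow_one, mul_one]
    have : (r * cos θ) ^ 2 + (r * sin θ) ^ 2 = r ^ 2 := by
      have := Real.cos_sq_add_sin_sq θ
      calc (r * cos θ) ^ 2 + (r * sin θ) ^ 2 = r ^ 2 * (cos θ ^ 2 + sin θ ^ 2) := by ring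
        _ = _ := by rw [this, mul_one]
    rw [this, Real.sqrt_sq hr.le, ENNReal.ofReal_mul hr.le]
  rw [h1, Measure.volume_eq_prod, ← Measure.prod_restrict]
  rw [lintegral_prod_mul (f := fun r : ℝ => ENNReal.ofReal (r ^ 1 * rexp (-(κ * r))))
    (g := fun _ => 1) (by fun_prop) (by fun_prop)]
  rw [← ofReal_integral_eq_lintegral_ofReal (integrableOn_Ioi_pow_exp 1 hκ)]
  · rw [integral_Ioi_pow_exp 1 hκ]
    simp only [lintegral_const, one_mul, Measure.restrict_apply MeasurableSet.univ, univ_inter,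
      Real.volume_Ioo]
    rw [← ENNReal.ofReal_mul (by positivity)]
    congr 1
    norm_num
    ring
  · filter_upwards [ae_restrict_mem measurableSet_Ioi] with x hx
    have : (0 : ℝ) < x := hx
    positivity

lemma lint2' {κ : ℝ} (hκ : 0 < κ) :
    ∫⁻ z : Fin 2 → ℝ, ENNReal.ofReal (rexp (-(κ * √(z 0 ^ 2 + z 1 ^ 2)))) =
      ENNReal.ofReal (2 * π / κ ^ 2) := by
  rw [← lint2 hκ, ← (volume_preserving_finTwoArrow ℝ).lintegral_comp (by fun_prop)]
  rfl

lemma lintQ {pp qq pq : ℝ} (hp : 0 < pp) (hD : 0 < pp * qq - pq ^ 2) {κ : ℝ} (hκ : 0 < κ) :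
    ∫⁻ z : Fin 2 → ℝ, ENNReal.ofReal (rexp (-(κ * √(Q pp qq pq (z 0) (z 1) /
      (pp * qq - pq ^ 2))))) = ENNReal.ofReal (√(pp * qq - pq ^ 2) * (2 * π / κ ^ 2)) := by
  obtain ⟨a, b, c, d, hdet, hQ, -, -⟩ := exists_map hp hD 0 0
  set D := pp * qq - pq ^ 2 with hDdef
  have hs0 : 0 < √D := Real.sqrt_pos.2 hD
  set L : (Fin 2 → ℝ) →ₗ[ℝ] (Fin 2 → ℝ) := Matrix.toLin' !![a, b; c, d] with hL
  have hL0 : ∀ y : Fin 2 → ℝ, L y 0 = a * y 0 + b * y 1 := by
    intro y; simp [hL, Matrix.toLin'_apply, Matrix.mulVec, dotProduct, Fin.sum_univ_two]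
  have hL1 : ∀ y : Fin 2 → ℝ, L y 1 = c * y 0 + d * y 1 := by
    intro y; simp [hL, Matrix.toLin'_apply, Matrix.mulVec, dotProduct, Fin.sum_univ_two]
  have hLdet : LinearMap.det L = √D := by
    rw [hL, LinearMap.det_toLin', Matrix.det_fin_two_of, hdet]
  have hmap := Measure.map_linearMap_addHaar_eq_smul_addHaar (volume : Measure (Fin 2 → ℝ))
    (f := L) (by rw [hLdet]; exact hs0.ne')
  set g : (Fin 2 → ℝ) → ENNReal := fun z => ENNReal.ofReal (rexp (-(κ * √(Q pp qq pq (z 0) (z 1) /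
      D)))) with hg
  have hgm : Measurable g := by
    simp only [hg, Q]
    fun_prop
  have hLm : Measurable L := L.continuous_of_finiteDimensional.measurable
  have h1 : ∫⁻ z, g z ∂(Measure.map L volume) = ENNReal.ofReal (2 * π / κ ^ 2) := by
    rw [lintegral_map hgm hLm, ← lint2' hκ]
    apply lintegral_congr
    intro z
    simp only [hg, hL0, hL1, hQ]
    rw [mul_div_cancel_left₀ _ hD.ne']
  rw [hmap, lintegral_smul_measure, hLdet, smul_eq_mul] at h1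
  have h2 : ENNReal.ofReal (√D) * ENNReal.ofReal |(√D)⁻¹| = 1 := by
    rw [← ENNReal.ofReal_mul hs0.le, abs_of_pos (inv_pos.2 hs0), mul_inv_cancel₀ hs0.ne']
    simp
  calc ∫⁻ z, g z = (ENNReal.ofReal (√D) * ENNReal.ofReal |(√D)⁻¹|) * ∫⁻ z, g z := by
        rw [h2, one_mul]
    _ = ENNReal.ofReal (√D) * ENNReal.ofReal (2 * π / κ ^ 2) := by rw [mul_assoc, h1]
    _ = _ := by rw [← ENNReal.ofReal_mul hs0.le]

lemma inner_upper {pp qq pq : ℝ} (hp : 0 < pp) (hD : 0 < pp * qq - pq ^ 2) {κ : ℝ} (hκ : 0 < κ) :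
    ∫⁻ s, ∫⁻ t, ENNReal.ofReal (rexp (-(κ * √(Q pp qq pq s t / (pp * qq - pq ^ 2)))))
      ∂ga ∂ga ≤ ENNReal.ofReal (√(pp * qq - pq ^ 2) / κ ^ 2) := by
  set D := pp * qq - pq ^ 2 with hDdef
  have hs0 : 0 < √D := Real.sqrt_pos.2 hD
  set g : ℝ → ℝ → ENNReal := fun s t => ENNReal.ofReal (rexp (-(κ * √(Q pp qq pq s t / D))))
    with hg
  have hgm : Measurable (fun z : ℝ × ℝ => g z.1 z.2) := by
    simp only [hg, Q]
    fun_prop
  have h1 : ∫⁻ s, ∫⁻ t, g s t = ENNReal.ofReal (√D * (2 * π / κ ^ 2)) := by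
    rw [← lintQ hp hD hκ, ← lintegral_prod (f := fun z : ℝ × ℝ => g z.1 z.2) hgm.aemeasurable,
      ← Measure.volume_eq_prod, ← (volume_preserving_finTwoArrow ℝ).lintegral_comp hgm]
    rfl
  calc ∫⁻ s, ∫⁻ t, g s t ∂ga ∂ga
      ≤ ∫⁻ s, (ENNReal.ofReal (√(2 * π))⁻¹ * ∫⁻ t, g s t) ∂ga :=
        lintegral_mono fun s => lintegral_ga_le _
    _ ≤ ENNReal.ofReal (√(2 * π))⁻¹ * ∫⁻ s, (ENNReal.ofReal (√(2 * π))⁻¹ * ∫⁻ t, g s t) :=
        lintegral_ga_le _
    _ = ENNReal.ofReal (√(2 * π))⁻¹ * (ENNReal.ofReal (√(2 * π))⁻¹ *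
          ENNReal.ofReal (√D * (2 * π / κ ^ 2))) := by
        rw [lintegral_const_mul _ hgm.lintegral_prod_right', h1]
    _ = ENNReal.ofReal (√D / κ ^ 2) := by
        rw [← ENNReal.ofReal_mul (by positivity), ← ENNReal.ofReal_mul (by positivity)]
        congr 1
        have : √(2 * π) * √(2 * π) = 2 * π := Real.mul_self_sqrt (by positivity)
        have h3 : (√(2 * π))⁻¹ * (√(2 * π))⁻¹ = (2 * π)⁻¹ := by rw [← mul_inv, this]
        rw [← mul_assoc, h3]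
        field_simp

end Pool.Agent.H73.CE
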