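import Mathlib
import Pool.Agent.H73.CE.Gau

set_option autoImplicit false
open MeasureTheory Set Real ProbabilityTheory

namespace Pool.Agent.H73.CE

instance : NullSingletonClass ga := nullSingletonClass_gaussianReal (by simp)

lemma ae_ne {n : ℕ} (i j : Fin (n + 1)) (hij : i ≠ j) (α β : ℝ) (hα : α ≠ 0) :
    ∀ᵐ b ∂(Measure.pi fun _ : Fin (n + 1) => ga), b j * α ≠ b i * β := by
  obtain ⟨k, hk⟩ := Fin.exists_succAbove_eq hij
  have mp := (measurePreserving_piFinSuccAbove (fun _ : Fin (n + 1) => ga) j).symm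
  rw [← mp.map_eq]
  have hm : MeasurableSet {b : Fin (n + 1) → ℝ | b j * α ≠ b i * β} :=
    (measurableSet_eq_fun (by fun_prop) (by fun_prop)).compl
  rw [ae_map_iff mp.measurable.aemeasurable hm]
  have e1 : ∀ z : ℝ × (Fin n → ℝ),
      (MeasurableEquiv.piFinSuccAbove (fun _ : Fin (n + 1) => ℝ) j).symm z j = z.1 := by
    intro z
    simp [MeasurableEquiv.piFinSuccAbove_symm_apply, Fin.insertNthEquiv]
  have e2 : ∀ z : ℝ × (Fin n → ℝ),
      (MeasurableEquiv.piFinSuccAbove (fun _ : Fin (n + 1) => ℝ) j).symm z i = z.2 k := by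
    intro z
    rw [← hk]
    simp [MeasurableEquiv.piFinSuccAbove_symm_apply, Fin.insertNthEquiv]
  simp only [e1, e2]
  have hm2 : MeasurableSet {z : ℝ × (Fin n → ℝ) | z.1 * α = z.2 k * β} :=
    measurableSet_eq_fun (by fun_prop) (by fun_prop)
  have hz : (ga.prod (Measure.pi fun _ : Fin n => ga)) {z | z.1 * α = z.2 k * β} = 0 := by
    rw [Measure.prod_apply_symm hm2]
    rw [lintegral_eq_zero_iff' (by exact (measurable_measure_prodMk_right hm2).aemeasurable)]
    filter_upwards with y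
    have : (fun x => (x, y)) ⁻¹' {z : ℝ × (Fin n → ℝ) | z.1 * α = z.2 k * β} =
        {y k * β / α} := by
      ext x
      simp only [mem_preimage, mem_ofPred_eq, mem_singleton_iff]
      rw [eq_div_iff hα]
    rw [this]
    simp
  rw [ae_iff]
  simpa using hz

/-- dot product -/
def dot {m : ℕ} (p q : Fin m → ℝ) : ℝ := ∑ t, p t * q t

lemma dot_pos_of {M : ℕ} (p q : Fin (M + 2) → ℝ) (h0 : p 0 ≠ 0) (h1 : q 1 * p 0 ≠ q 0 * p 1) :
    0 < dot p p ∧ 0 < dot p p * dot q q - dot p q ^ 2 := by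
  have hpp : 0 < dot p p := by
    have h : p 0 * p 0 ≤ dot p p :=
      Finset.single_le_sum (f := fun t => p t * p t) (fun t _ => mul_self_nonneg _)
        (Finset.mem_univ 0)
    have : 0 < p 0 * p 0 := mul_self_pos.2 h0
    linarith
  refine ⟨hpp, ?_⟩
  by_contra hD
  push Not at hD
  have e : ∑ t, (dot p p * q t - dot p q * p t) ^ 2 =
      dot p p * (dot p p * dot q q - dot p q ^ 2) := by
    have key : ∀ a b : ℝ, ∑ t, (a * q t - b * p t) ^ 2 =
        a ^ 2 * dot q q - 2 * a * b * dot p q + b ^ 2 * dot p p := by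
      intro a b
      simp only [dot, Finset.mul_sum, ← Finset.sum_add_distrib, ← Finset.sum_sub_distrib]
      apply Finset.sum_congr rfl
      intro t _
      ring
    rw [key]; ring
  have hle : ∑ t, (dot p p * q t - dot p q * p t) ^ 2 ≤ 0 := by
    rw [e]; exact mul_nonpos_of_nonneg_of_nonpos hpp.le hD
  have hz : ∀ t, dot p p * q t - dot p q * p t = 0 := by
    intro t
    have h1 : (dot p p * q t - dot p q * p t) ^ 2 ≤ 0 :=
      (Finset.single_le_sum (f := fun t => (dot p p * q t - dot p q * p t) ^ 2)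
        (fun t _ => sq_nonneg _) (Finset.mem_univ t)).trans hle
    exact pow_eq_zero_iff (two_ne_zero) |>.1 (le_antisymm h1 (sq_nonneg _))
  apply h1
  have ha := hz 0
  have hb := hz 1
  have : dot p p * (q 1 * p 0 - q 0 * p 1) = 0 := by
    linear_combination p 0 * hb - p 1 * ha
  have := (mul_eq_zero.1 this).resolve_left hpp.ne'
  linarith

lemma ae_pos (M : ℕ) : ∀ᵐ z ∂((Measure.pi fun _ : Fin (M + 2) => ga).prod
    (Measure.pi fun _ : Fin (M + 2) => ga)),
    0 < dot z.1 z.1 ∧ 0 < dot z.1 z.1 * dot z.2 z.2 - dot z.1 z.2 ^ 2 := by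
  have hm : MeasurableSet {z : (Fin (M + 2) → ℝ) × (Fin (M + 2) → ℝ) |
      0 < dot z.1 z.1 ∧ 0 < dot z.1 z.1 * dot z.2 z.2 - dot z.1 z.2 ^ 2} := by
    have h1 : MeasurableSet {z : (Fin (M + 2) → ℝ) × (Fin (M + 2) → ℝ) | 0 < dot z.1 z.1} := by
      apply measurableSet_lt measurable_const
      unfold dot; fun_prop
    have h2 : MeasurableSet {z : (Fin (M + 2) → ℝ) × (Fin (M + 2) → ℝ) |
        0 < dot z.1 z.1 * dot z.2 z.2 - dot z.1 z.2 ^ 2} := by
      apply measurableSet_lt measurable_const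
      unfold dot; fun_prop
    exact h1.inter h2
  rw [Measure.ae_prod_iff_ae_ae hm]
  filter_upwards [Measure.ae_eval_ne (μ := fun _ : Fin (M + 2) => ga) 0 (0 : ℝ)] with p hp
  filter_upwards [ae_ne (n := M + 1) 0 1 (by simp) (p 0) (p 1) hp] with q hq
  exact dot_pos_of p q hp hq

end Pool.Agent.H73.CE
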