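import Mathlib
import Pool.Agent.H73.CE.Ae

set_option autoImplicit false
open MeasureTheory Set Real ProbabilityTheory

namespace Pool.Agent.H73.CE

/-! ### pointwise bounds -/

lemma point_lower (n : ℕ) (s r : ℝ) (hr : 0 < r) :
    rexp (-(n / r * |s|)) ≤ 2 ^ n * (2 * (|s| + r) / √(s ^ 2 + r ^ 2)) ^ (-(n : ℝ)) := by
  have h1 : 0 < √(s ^ 2 + r ^ 2) := by positivity
  have h2 : 0 < |s| + r := by positivity
  rw [Real.rpow_neg (by positivity), Real.rpow_natCast, ← inv_pow, ← mul_pow]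
  have e : rexp (-(n / r * |s|)) = rexp (-(|s| / r)) ^ n := by
    rw [← Real.exp_nat_mul]; congr 1; ring
  rw [e]
  apply pow_le_pow_left₀ (Real.exp_pos _).le
  rw [Real.exp_neg]
  have h3 : 1 + |s| / r ≤ rexp (|s| / r) := by
    have := Real.add_one_le_exp (|s| / r); linarith
  have h4 : 0 < 1 + |s| / r := by positivity
  calc (rexp (|s| / r))⁻¹ ≤ (1 + |s| / r)⁻¹ := inv_anti₀ h4 h3
    _ = r / (|s| + r) := by field_simp; ring
    _ ≤ √(s ^ 2 + r ^ 2) / (|s| + r) := by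
        gcongr
        apply Real.le_sqrt_of_sq_le
        nlinarith [sq_nonneg s]
    _ = _ := by field_simp

lemma point_lower' (n : ℕ) (s r : ℝ) (hr : 0 ≤ r) :
    (2 * (|s| + r) / √(s ^ 2 + r ^ 2)) ^ (-(n : ℝ)) ≤ 1 := by
  have h1 : 0 ≤ √(s ^ 2 + r ^ 2) := by positivity
  have h2 : 0 ≤ |s| + r := by positivity
  rw [Real.rpow_neg (by positivity), Real.rpow_natCast]
  rcases h1.eq_or_lt with h | h
  · rw [← h, div_zero]
    rcases Nat.eq_zero_or_pos n with rfl | hn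
    · simp
    · rw [zero_pow hn.ne']; simp
  · apply inv_le_one_of_one_le₀
    apply one_le_pow₀
    rw [le_div_iff₀ h, one_mul]
    apply Real.sqrt_le_iff.2
    refine ⟨by positivity, ?_⟩
    nlinarith [sq_abs s, abs_nonneg s]

lemma base_bound (τ : ℝ) (hτ : 0 ≤ τ) :
    π * √(1 + τ ^ 2) / (π + 4 * τ) ≤ rexp (-(1.26 * τ)) ∨
      π * √(1 + τ ^ 2) / (π + 4 * τ) ≤ 0.994 := by
  have hpi : 0 < π := Real.pi_pos
  have hpi2 : π ≤ 3.1416 := Real.pi_lt_d4.le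
  have hs : √(1 + τ ^ 2) ≤ 1 + τ ^ 2 / 2 := by
    apply Real.sqrt_le_iff.2
    exact ⟨by positivity, by nlinarith [sq_nonneg (τ ^ 2)]⟩
  have hlow : π * (1 + 1.2732 * τ) ≤ π + 4 * τ := by nlinarith
  have hpos : 0 < π + 4 * τ := by positivity
  rcases le_total τ (1 / 200) with h | h
  · left
    rw [div_le_iff₀ hpos]
    have hx : |1.26 * τ| ≤ 1 := by rw [abs_of_nonneg (by positivity)]; linarith
    have he := Real.abs_exp_sub_one_sub_id_le hx
    have he' : rexp (1.26 * τ) ≤ 1 + 1.26 * τ + (1.26 * τ) ^ 2 := by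
      have := (abs_le.1 he).2; linarith
    rw [Real.exp_neg, ← div_eq_inv_mul, le_div_iff₀ (Real.exp_pos _)]
    calc π * √(1 + τ ^ 2) * rexp (1.26 * τ)
        ≤ π * (1 + τ ^ 2 / 2) * (1 + 1.26 * τ + (1.26 * τ) ^ 2) := by gcongr
      _ ≤ π * (1 + 1.2732 * τ) := by
          rw [mul_assoc]
          apply mul_le_mul_of_nonneg_left _ hpi.le
          have h2 : τ ^ 2 ≤ τ * (1 / 200) := by nlinarith
          have h3 : τ ^ 3 ≤ τ * (1 / 200) ^ 2 := by nlinarith [mul_nonneg hτ hτ]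
          have h4 : τ ^ 4 ≤ τ * (1 / 200) ^ 3 := by nlinarith [mul_nonneg hτ hτ, mul_nonneg (mul_nonneg hτ hτ) hτ]
          nlinarith
      _ ≤ π + 4 * τ := hlow
  · right
    rw [div_le_iff₀ hpos]
    have h2 : √(1 + τ ^ 2) ≤ 0.994 * (1 + 1.2732 * τ) := by
      apply Real.sqrt_le_iff.2
      exact ⟨by positivity, by nlinarith⟩
    calc π * √(1 + τ ^ 2) ≤ π * (0.994 * (1 + 1.2732 * τ)) := by gcongr
      _ = 0.994 * (π * (1 + 1.2732 * τ)) := by ring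
      _ ≤ 0.994 * (π + 4 * τ) := by gcongr

lemma point_upper (n : ℕ) (τ : ℝ) (hτ : 0 ≤ τ) :
    π ^ n * ((π + 4 * τ) / √(1 + τ ^ 2)) ^ (-(n : ℝ)) ≤
      rexp (-(1.26 * n * τ)) + 0.994 ^ n := by
  have hpi : 0 < π := Real.pi_pos
  have h1 : 0 < √(1 + τ ^ 2) := by positivity
  have hpos : 0 < π + 4 * τ := by positivity
  rw [Real.rpow_neg (by positivity), Real.rpow_natCast, ← inv_pow, ← mul_pow]
  have e : π * ((π + 4 * τ) / √(1 + τ ^ 2))⁻¹ = π * √(1 + τ ^ 2) / (π + 4 * τ) := by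
    field_simp
  rw [e]
  have hn : 0 ≤ π * √(1 + τ ^ 2) / (π + 4 * τ) := by positivity
  rcases base_bound τ hτ with h | h
  · calc (π * √(1 + τ ^ 2) / (π + 4 * τ)) ^ n ≤ rexp (-(1.26 * τ)) ^ n :=
          pow_le_pow_left₀ hn h n
      _ = rexp (-(1.26 * n * τ)) := by
          rw [← Real.exp_nat_mul]; congr 1; ring
      _ ≤ _ := by
          have : (0 : ℝ) ≤ 0.994 ^ n := by positivity
          linarith
  · calc (π * √(1 + τ ^ 2) / (π + 4 * τ)) ^ n ≤ 0.994 ^ n := pow_le_pow_left₀ hn h n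
      _ ≤ _ := by
          have : 0 ≤ rexp (-(1.26 * n * τ)) := (Real.exp_pos _).le
          linarith

lemma point_upper_one (n : ℕ) (τ : ℝ) (hτ : 0 ≤ τ) :
    ((π + 4 * τ) / √(1 + τ ^ 2)) ^ (-(n : ℝ)) ≤ 1 := by
  have hpi : 3 < π := Real.pi_gt_three
  have h1 : 0 < √(1 + τ ^ 2) := by positivity
  have hpos : 0 < π + 4 * τ := by positivity
  rw [Real.rpow_neg (by positivity), Real.rpow_natCast]
  apply inv_le_one_of_one_le₀
  apply one_le_pow₀
  rw [le_div_iff₀ h1, one_mul]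
  apply Real.sqrt_le_iff.2
  exact ⟨by positivity, by nlinarith⟩

/-! ### the measures -/

/-- Gaussian measure on `ℝ^k` -/
noncomputable abbrev gp (k : ℕ) : Measure (Fin k → ℝ) := Measure.pi fun _ => ga

/-- splitting of the first coordinate -/
def spl (m : ℕ) : (Fin (m + 1) → ℝ) ≃ᵐ ℝ × (Fin m → ℝ) :=
  MeasurableEquiv.piFinSuccAbove (fun _ : Fin (m + 1) => ℝ) 0

lemma spl_apply (m : ℕ) (a : Fin (m + 1) → ℝ) : spl m a = (a 0, fun t => a t.succ) := by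
  rfl

lemma mp_spl (m : ℕ) : MeasurePreserving (spl m) (gp (m + 1)) (ga.prod (gp m)) :=
  measurePreserving_piFinSuccAbove (fun _ : Fin (m + 1) => ga) 0

def sp1 (m : ℕ) : (Fin 1 → Fin (m + 1) → ℝ) ≃ᵐ ℝ × (Fin m → ℝ) :=
  (MeasurableEquiv.funUnique (Fin 1) (Fin (m + 1) → ℝ)).trans (spl m)

lemma mp_sp1 (m : ℕ) : MeasurePreserving (sp1 m) (Measure.pi fun _ : Fin 1 => gp (m + 1))
    (ga.prod (gp m)) :=
  (measurePreserving_funUnique (gp (m + 1)) (Fin 1)).trans (mp_spl m)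

def sp2 (m : ℕ) : (Fin 2 → Fin (m + 1) → ℝ) ≃ᵐ (ℝ × (Fin m → ℝ)) × (ℝ × (Fin m → ℝ)) :=
  (MeasurableEquiv.finTwoArrow).trans ((spl m).prodCongr (spl m))

lemma mp_sp2 (m : ℕ) : MeasurePreserving (sp2 m) (Measure.pi fun _ : Fin 2 => gp (m + 1))
    ((ga.prod (gp m)).prod (ga.prod (gp m))) :=
  (measurePreserving_finTwoArrow (gp (m + 1))).trans ((mp_spl m).prod (mp_spl m))

end Pool.Agent.H73.CE
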