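import Mathlib
import Pool.Agent.H73.CE.Int

set_option autoImplicit false
open MeasureTheory Set Real ProbabilityTheory

namespace Pool.Agent.H73.CE

/-- the integrand of the problem -/
noncomputable def igd {m : ℕ} (k : ℕ) (A : Fin k → Fin (m + 1) → ℝ) : ℝ :=
  ((volume ((fun x : Fin (m + 1) → ℝ => (Matrix.of A).mulVec x) '' cyl m)).toReal /
    Real.sqrt ((Matrix.of A * (Matrix.of A).transpose).det)) ^ (-((m + 1 : ℕ) : ℝ))

noncomputable def g1 (m : ℕ) (z : ℝ × (Fin m → ℝ)) : ℝ :=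
  (2 * (|z.1| + √(dot z.2 z.2)) / √(z.1 ^ 2 + √(dot z.2 z.2) ^ 2)) ^ (-((m + 1 : ℕ) : ℝ))

lemma dot_self_nonneg {m : ℕ} (p : Fin m → ℝ) : 0 ≤ dot p p :=
  Finset.sum_nonneg fun _ _ => mul_self_nonneg _

lemma measurable_g1 (m : ℕ) : Measurable (g1 m) := by
  unfold g1 dot
  fun_prop

lemma g1_nonneg (m : ℕ) (z : ℝ × (Fin m → ℝ)) : 0 ≤ g1 m z := by
  unfold g1; positivity

lemma g1_le (m : ℕ) (z : ℝ × (Fin m → ℝ)) : g1 m z ≤ 1 :=
  point_lower' (m + 1) z.1 _ (Real.sqrt_nonneg _)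

lemma integrable_g1 (m : ℕ) : Integrable (g1 m) (ga.prod (gp m)) := by
  refine Integrable.of_bound (measurable_g1 m).aestronglyMeasurable 1 ?_
  filter_upwards with z
  rw [Real.norm_eq_abs, abs_of_nonneg (g1_nonneg m z)]
  exact g1_le m z

lemma ae_dot_pos (M : ℕ) : ∀ᵐ p ∂(gp (M + 1)), 0 < dot p p := by
  filter_upwards [Measure.ae_eval_ne (μ := fun _ : Fin (M + 1) => ga) 0 (0 : ℝ)] with p hp
  have h : p 0 * p 0 ≤ dot p p :=
    Finset.single_le_sum (f := fun t => p t * p t) (fun t _ => mul_self_nonneg _)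
      (Finset.mem_univ 0)
  have : 0 < p 0 * p 0 := mul_self_pos.2 hp
  linarith

lemma I1_eq (M : ℕ) : ∫ A, igd (m := M + 1) 1 A ∂(Measure.pi fun _ : Fin 1 => gp (M + 1 + 1)) =
    ∫ z, g1 (M + 1) z ∂(ga.prod (gp (M + 1))) := by
  rw [← (mp_sp1 (M + 1)).integral_comp']
  apply integral_congr_ae
  have h : ∀ᵐ z ∂(ga.prod (gp (M + 1))), 0 < dot z.2 z.2 :=
    Measure.quasiMeasurePreserving_snd.ae (ae_dot_pos M)
  filter_upwards [(mp_sp1 (M + 1)).quasiMeasurePreserving.ae h] with A hA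
  have e : sp1 (M + 1) A = (A 0 0, fun t => A 0 t.succ) := rfl
  rw [e] at hA ⊢
  have hp : 0 < dt (A 0) (A 0) := hA
  unfold igd g1
  rw [volume_image_one A hp, det_one, ENNReal.toReal_ofReal (by positivity)]
  have e2 : dot (fun t => A 0 t.succ) (fun t => A 0 t.succ) = dt (A 0) (A 0) := rfl
  simp only [e2, Real.sq_sqrt hp.le]

lemma inner_g1 (m : ℕ) (p : Fin m → ℝ) (ρ : ℝ) (hρ : 0 < ρ) :
    2 / √(2 * π) * ((3 / (2 * ρ * (m + 1 : ℕ)) - ρ / (2 * ((m + 1 : ℕ) : ℝ) ^ 3)) * dot p p -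
      (1 / (2 * ρ ^ 3 * (m + 1 : ℕ)) + 1 / (2 * ρ * ((m + 1 : ℕ) : ℝ) ^ 3)) * dot p p ^ 2) ≤
    ∫ s, 2 ^ (m + 1) * g1 m (s, p) ∂ga := by
  set n : ℕ := m + 1 with hn
  have hn0 : (0 : ℝ) < n := by rw [hn]; positivity
  rcases (dot_self_nonneg p).eq_or_lt with h | h
  · rw [← h]
    simp only [mul_zero, sub_zero, ne_eq, OfNat.ofNat_ne_zero, not_false_eq_true, zero_pow]
    apply integral_nonneg
    intro s
    have := g1_nonneg m (s, p)
    positivity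
  · set r := √(dot p p) with hr
    have hr0 : 0 < r := Real.sqrt_pos.2 h
    have hr2 : r ^ 2 = dot p p := Real.sq_sqrt h.le
    have hk : (0 : ℝ) < n / r := by positivity
    have h1 := inner_lower hk
    have h2 : ∫ s, rexp (-(n / r * |s|)) ∂ga ≤ ∫ s, 2 ^ n * g1 m (s, p) ∂ga := by
      apply integral_mono
      · refine Integrable.of_bound (by fun_prop) 1 ?_
        filter_upwards with s
        rw [Real.norm_eq_abs, Real.abs_exp, Real.exp_le_one_iff]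
        have : 0 ≤ n / r * |s| := by positivity
        linarith
      · have hm : Measurable (fun s : ℝ => g1 m (s, p)) :=
          (measurable_g1 m).comp (by fun_prop)
        have : Integrable (fun s : ℝ => g1 m (s, p)) ga := by
          refine Integrable.of_bound hm.aestronglyMeasurable 1 ?_
          filter_upwards with s
          rw [Real.norm_eq_abs, abs_of_nonneg (g1_nonneg m _)]
          exact g1_le m _
        exact this.const_mul _
      · intro s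
        have := point_lower n s r hr0
        simpa only [g1, hr] using this
    refine le_trans ?_ (h1.trans h2)
    have h3 : 0 < 2 / √(2 * π) := by positivity
    apply mul_le_mul_of_nonneg_left _ h3.le
    rw [← hr2]
    have e1 : 1 / ((n : ℝ) / r) - 1 / (n / r) ^ 3 = r / n - r ^ 3 / n ^ 3 := by
      field_simp
    rw [e1]
    -- r ≥ 3/(2ρ) r² - 1/(2ρ³) r⁴, r³ ≤ (ρ² r² + r⁴)/(2ρ)
    have k1 : 3 / (2 * ρ) * r ^ 2 - 1 / (2 * ρ ^ 3) * r ^ 4 ≤ r := by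
      have : r - (3 / (2 * ρ) * r ^ 2 - 1 / (2 * ρ ^ 3) * r ^ 4) =
          r * ((r - ρ) ^ 2 * (r + 2 * ρ)) / (2 * ρ ^ 3) := by
        field_simp; ring
      have h4 : 0 ≤ r * ((r - ρ) ^ 2 * (r + 2 * ρ)) / (2 * ρ ^ 3) := by positivity
      linarith
    have k2 : r ^ 3 ≤ (ρ ^ 2 * r ^ 2 + r ^ 4) / (2 * ρ) := by
      rw [le_div_iff₀ (by positivity)]
      nlinarith [mul_nonneg (sq_nonneg r) (sq_nonneg (r - ρ))]
    have e2 : (3 / (2 * ρ * n) - ρ / (2 * (n : ℝ) ^ 3)) * r ^ 2 -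
        (1 / (2 * ρ ^ 3 * n) + 1 / (2 * ρ * (n : ℝ) ^ 3)) * (r ^ 2) ^ 2 =
        (3 / (2 * ρ) * r ^ 2 - 1 / (2 * ρ ^ 3) * r ^ 4) / n -
          ((ρ ^ 2 * r ^ 2 + r ^ 4) / (2 * ρ)) / n ^ 3 := by
      field_simp
      ring
    rw [e2]
    gcongr

lemma dot_eq_sum_sq {m : ℕ} (p : Fin m → ℝ) : dot p p = ∑ i, p i ^ 2 := by
  simp [dot, sq]

lemma I1_lower (m : ℕ) (ρ : ℝ) (hρ : 0 < ρ) (hm : (m : ℝ) = ρ ^ 2) :
    2 / √(2 * π) * ((ρ ^ 2 - 1) / (ρ * (ρ ^ 2 + 1)) - ρ / (ρ ^ 2 + 1) ^ 2) ≤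
      2 ^ (m + 1) * ∫ z, g1 m z ∂(ga.prod (gp m)) := by
  obtain ⟨i1, e1, i2, e2⟩ := pi_moments m
  rw [← integral_const_mul, integral_prod_symm _ ((integrable_g1 m).const_mul _)]
  simp only [← dot_eq_sum_sq] at i1 e1 i2 e2
  set A := 3 / (2 * ρ * (m + 1 : ℕ)) - ρ / (2 * ((m + 1 : ℕ) : ℝ) ^ 3) with hA
  set B := 1 / (2 * ρ ^ 3 * (m + 1 : ℕ)) + 1 / (2 * ρ * ((m + 1 : ℕ) : ℝ) ^ 3) with hB
  have hI : Integrable (fun p : Fin m → ℝ => 2 / √(2 * π) * (A * dot p p - B * dot p p ^ 2))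
      (gp m) := ((i1.const_mul A).sub (i2.const_mul B)).const_mul _
  have h1 : ∫ p, 2 / √(2 * π) * (A * dot p p - B * dot p p ^ 2) ∂(gp m) =
      2 / √(2 * π) * ((ρ ^ 2 - 1) / (ρ * (ρ ^ 2 + 1)) - ρ / (ρ ^ 2 + 1) ^ 2) := by
    rw [integral_const_mul, integral_sub (i1.const_mul A) (i2.const_mul B), integral_const_mul,
      integral_const_mul, e1, e2, hA, hB]
    push_cast
    rw [hm]
    congr 1
    field_simp
    ring
  rw [← h1]
  apply integral_mono hI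
  · exact ((integrable_g1 m).const_mul _).integral_prod_right
  · intro p
    exact inner_g1 m p ρ hρ

end Pool.Agent.H73.CE
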