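import Mathlib
import Pool.Agent.H73.CE.One

set_option autoImplicit false
open MeasureTheory Set Real ProbabilityTheory

namespace Pool.Agent.H73.CE

/-- the Gram determinant -/
def gd {m : ℕ} (p q : Fin m → ℝ) : ℝ := dot p p * dot q q - dot p q ^ 2

noncomputable def tau {m : ℕ} (p q : Fin m → ℝ) (s t : ℝ) : ℝ :=
  √(Q (dot p p) (dot q q) (dot p q) s t / gd p q)

noncomputable def g2 (m : ℕ) (z : (ℝ × (Fin m → ℝ)) × (ℝ × (Fin m → ℝ))) : ℝ :=
  ((π + 4 * tau z.1.2 z.2.2 z.1.1 z.2.1) / √(1 + tau z.1.2 z.2.2 z.1.1 z.2.1 ^ 2)) ^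
    (-((m + 1 : ℕ) : ℝ))

lemma measurable_tau (m : ℕ) : Measurable
    (fun z : (ℝ × (Fin m → ℝ)) × (ℝ × (Fin m → ℝ)) => tau z.1.2 z.2.2 z.1.1 z.2.1) := by
  unfold tau gd Q dot
  fun_prop

lemma measurable_g2 (m : ℕ) : Measurable (g2 m) := by
  have := measurable_tau m
  unfold g2
  fun_prop

lemma tau_nonneg {m : ℕ} (p q : Fin m → ℝ) (s t : ℝ) : 0 ≤ tau p q s t := Real.sqrt_nonneg _

lemma g2_pos (m : ℕ) (z) : 0 < g2 m z := by
  have := tau_nonneg z.1.2 z.2.2 z.1.1 z.2.1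
  unfold g2
  apply Real.rpow_pos_of_pos
  have := Real.pi_pos
  positivity

lemma g2_le (m : ℕ) (z) : g2 m z ≤ 1 := point_upper_one (m + 1) _ (tau_nonneg _ _ _ _)

lemma integrable_g2 (m : ℕ) : Integrable (g2 m) ((ga.prod (gp m)).prod (ga.prod (gp m))) := by
  refine Integrable.of_bound (measurable_g2 m).aestronglyMeasurable 1 ?_
  filter_upwards with z
  rw [Real.norm_eq_abs, abs_of_nonneg (g2_pos m z).le]
  exact g2_le m z

lemma I2_pos (m : ℕ) : 0 < ∫ z, g2 m z ∂((ga.prod (gp m)).prod (ga.prod (gp m))) := by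
  rw [integral_pos_iff_support_of_nonneg (fun z => (g2_pos m z).le) (integrable_g2 m)]
  have : Function.support (g2 m) = univ := by
    ext z
    simp [(g2_pos m z).ne']
  rw [this]
  simp

lemma I2_eq (M : ℕ) : ∫ A, igd (m := M + 2) 2 A ∂(Measure.pi fun _ : Fin 2 => gp (M + 2 + 1)) =
    ∫ z, g2 (M + 2) z ∂((ga.prod (gp (M + 2))).prod (ga.prod (gp (M + 2)))) := by
  rw [← (mp_sp2 (M + 2)).integral_comp']
  apply integral_congr_ae
  have h : ∀ᵐ z ∂((ga.prod (gp (M + 2))).prod (ga.prod (gp (M + 2)))),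
      0 < dot z.1.2 z.1.2 ∧ 0 < gd z.1.2 z.2.2 :=
    (QuasiMeasurePreserving.prodMap Measure.quasiMeasurePreserving_snd
      Measure.quasiMeasurePreserving_snd).ae (ae_pos M)
  filter_upwards [(mp_sp2 (M + 2)).quasiMeasurePreserving.ae h] with A hA
  have e : sp2 (M + 2) A = ((A 0 0, fun t => A 0 t.succ), (A 1 0, fun t => A 1 t.succ)) := rfl
  rw [e] at hA ⊢
  have hp : 0 < dt (A 0) (A 0) := hA.1
  have hD : 0 < dt (A 0) (A 0) * dt (A 1) (A 1) - dt (A 0) (A 1) ^ 2 := hA.2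
  unfold igd g2
  rw [volume_image_two A hp hD, det_two, ENNReal.toReal_ofReal]
  · have e2 : tau (fun t => A 0 t.succ) (fun t => A 1 t.succ) (A 0 0) (A 1 0) =
      √(Q (dt (A 0) (A 0)) (dt (A 1) (A 1)) (dt (A 0) (A 1)) (A 0 0) (A 1 0) /
        (dt (A 0) (A 0) * dt (A 1) (A 1) - dt (A 0) (A 1) ^ 2)) := rfl
    simp only
    rw [← e2]
    set D := dt (A 0) (A 0) * dt (A 1) (A 1) - dt (A 0) (A 1) ^ 2 with hDD
    set q := Q (dt (A 0) (A 0)) (dt (A 1) (A 1)) (dt (A 0) (A 1)) (A 0 0) (A 1 0) with hq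
    set τ := tau (fun t => A 0 t.succ) (fun t => A 1 t.succ) (A 0 0) (A 1 0) with hτ
    have hq0 : 0 ≤ q := Q_nonneg hp hD _ _
    have hτ2 : τ ^ 2 = q / D := by
      rw [e2]; exact Real.sq_sqrt (by positivity)
    have e3 : D + q = D * (1 + τ ^ 2) := by
      rw [hτ2]; field_simp
    rw [e3, Real.sqrt_mul hD.le]
    have hs : √D ≠ 0 := (Real.sqrt_pos.2 hD).ne'
    congr 1
    field_simp
  · have := Real.pi_pos
    positivity

lemma lintegral_four {m : ℕ} (F : (ℝ × (Fin m → ℝ)) × (ℝ × (Fin m → ℝ)) → ENNReal)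
    (hF : Measurable F) :
    ∫⁻ z, F z ∂((ga.prod (gp m)).prod (ga.prod (gp m))) =
      ∫⁻ p, ∫⁻ q, ∫⁻ s, ∫⁻ t, F ((s, p), (t, q)) ∂ga ∂ga ∂(gp m) ∂(gp m) := by
  rw [lintegral_prod _ hF.aemeasurable, lintegral_prod_symm _ (by
    exact (hF.lintegral_prod_right').aemeasurable)]
  apply lintegral_congr
  intro p
  have h1 : ∀ s : ℝ, ∫⁻ y, F ((s, p), y) ∂(ga.prod (gp m)) =
      ∫⁻ q, ∫⁻ t, F ((s, p), (t, q)) ∂ga ∂(gp m) := by
    intro s
    rw [lintegral_prod_symm _ (by exact (hF.comp (by fun_prop)).aemeasurable)]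
  simp only [h1]
  rw [lintegral_lintegral_swap]
  have h2 : Measurable (fun w : (ℝ × (Fin m → ℝ)) × ℝ => F ((w.1.1, p), (w.2, w.1.2))) :=
    hF.comp (by fun_prop)
  exact (h2.lintegral_prod_right').aemeasurable

lemma sqrt_gd_le {m : ℕ} (p q : Fin m → ℝ) : √(gd p q) ≤ (dot p p + dot q q) / 2 := by
  have hp := dot_self_nonneg p
  have hq := dot_self_nonneg q
  apply Real.sqrt_le_iff.2
  refine ⟨by positivity, ?_⟩
  unfold gd
  nlinarith [sq_nonneg (dot p p - dot q q), sq_nonneg (dot p q)]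

lemma lint_tau (M : ℕ) {κ : ℝ} (hκ : 0 < κ) :
    ∫⁻ z, ENNReal.ofReal (rexp (-(κ * tau z.1.2 z.2.2 z.1.1 z.2.1)))
      ∂((ga.prod (gp (M + 2))).prod (ga.prod (gp (M + 2)))) ≤
      ENNReal.ofReal ((M + 2 : ℕ) / κ ^ 2) := by
  have hm := measurable_tau (M + 2)
  rw [lintegral_four (fun z => ENNReal.ofReal (rexp (-(κ * tau z.1.2 z.2.2 z.1.1 z.2.1))))
    (by fun_prop)]
  obtain ⟨i1, e1, -, -⟩ := pi_moments (M + 2)
  simp only [← dot_eq_sum_sq] at i1 e1
  have hae := (Measure.ae_ae_of_ae_prod (ae_pos M))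
  calc ∫⁻ p, ∫⁻ q, ∫⁻ s, ∫⁻ t, ENNReal.ofReal (rexp (-(κ * tau p q s t)))
        ∂ga ∂ga ∂(gp (M + 2)) ∂(gp (M + 2))
      ≤ ∫⁻ p, ∫⁻ q, ENNReal.ofReal ((dot p p + dot q q) / 2 / κ ^ 2)
          ∂(gp (M + 2)) ∂(gp (M + 2)) := by
        apply lintegral_mono_ae
        filter_upwards [hae] with p hp
        apply lintegral_mono_ae
        filter_upwards [hp] with q hq
        refine (inner_upper hq.1 hq.2 hκ).trans ?_
        apply ENNReal.ofReal_le_ofReal
        have := sqrt_gd_le p q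
        unfold gd at this
        gcongr
    _ = ∫⁻ z : (Fin (M + 2) → ℝ) × (Fin (M + 2) → ℝ),
          ENNReal.ofReal ((dot z.1 z.1 + dot z.2 z.2) / 2 / κ ^ 2)
          ∂((gp (M + 2)).prod (gp (M + 2))) := by
        rw [lintegral_prod]
        unfold dot
        fun_prop
    _ = ENNReal.ofReal (∫ z : (Fin (M + 2) → ℝ) × (Fin (M + 2) → ℝ),
          ((dot z.1 z.1 + dot z.2 z.2) / 2 / κ ^ 2) ∂((gp (M + 2)).prod (gp (M + 2)))) := by
        rw [ofReal_integral_eq_lintegral_ofReal]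
        · exact (((i1.comp_fst (gp (M + 2))).add (i1.comp_snd (gp (M + 2)))).div_const 2).div_const _
        · filter_upwards with z
          have hp := dot_self_nonneg z.1
          have hq := dot_self_nonneg z.2
          positivity
    _ = _ := by
        congr 1
        rw [integral_div, integral_div]
        have a1 : Integrable (fun z : (Fin (M + 2) → ℝ) × (Fin (M + 2) → ℝ) => dot z.1 z.1)
          ((gp (M + 2)).prod (gp (M + 2))) := i1.comp_fst (gp (M + 2))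
        have a2 : Integrable (fun z : (Fin (M + 2) → ℝ) × (Fin (M + 2) → ℝ) => dot z.2 z.2)
          ((gp (M + 2)).prod (gp (M + 2))) := i1.comp_snd (gp (M + 2))
        rw [integral_add a1 a2]
        have b1 := integral_prod_mul (μ := gp (M + 2)) (ν := gp (M + 2))
          (fun p => dot p p) (fun _ => (1 : ℝ))
        have b2 := integral_prod_mul (μ := gp (M + 2)) (ν := gp (M + 2))
          (fun _ => (1 : ℝ)) (fun p => dot p p)
        simp only [mul_one, one_mul, integral_const, probReal_univ, smul_eq_mul, e1]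
          at b1 b2
        rw [b1, b2]
        ring

lemma I2_upper (M : ℕ) :
    π ^ (M + 3) * ∫ z, g2 (M + 2) z ∂((ga.prod (gp (M + 2))).prod (ga.prod (gp (M + 2)))) ≤
      (M + 2 : ℕ) / (1.26 * (M + 3 : ℕ)) ^ 2 + 0.994 ^ (M + 3) := by
  set μ := (ga.prod (gp (M + 2))).prod (ga.prod (gp (M + 2))) with hμ
  have hm := measurable_tau (M + 2)
  have hπ := Real.pi_pos
  have hR : (0 : ℝ) ≤ (M + 2 : ℕ) / (1.26 * (M + 3 : ℕ)) ^ 2 + 0.994 ^ (M + 3) := by positivity
  rw [← ENNReal.ofReal_le_ofReal_iff hR, ← integral_const_mul,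
    ofReal_integral_eq_lintegral_ofReal ((integrable_g2 (M + 2)).const_mul _)
      (by filter_upwards with z; have := (g2_pos (M + 2) z); positivity)]
  calc ∫⁻ z, ENNReal.ofReal (π ^ (M + 3) * g2 (M + 2) z) ∂μ
      ≤ ∫⁻ z, (ENNReal.ofReal (rexp (-(1.26 * (M + 3 : ℕ) * tau z.1.2 z.2.2 z.1.1 z.2.1))) +
          ENNReal.ofReal (0.994 ^ (M + 3))) ∂μ := by
        apply lintegral_mono
        intro z
        simp only
        rw [← ENNReal.ofReal_add (Real.exp_pos _).le (by positivity)]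
        apply ENNReal.ofReal_le_ofReal
        exact point_upper (M + 3) _ (tau_nonneg _ _ _ _)
    _ = (∫⁻ z, ENNReal.ofReal (rexp (-(1.26 * (M + 3 : ℕ) * tau z.1.2 z.2.2 z.1.1 z.2.1))) ∂μ) +
          ENNReal.ofReal (0.994 ^ (M + 3)) := by
        rw [lintegral_add_right _ measurable_const]
        simp
    _ ≤ ENNReal.ofReal ((M + 2 : ℕ) / (1.26 * (M + 3 : ℕ)) ^ 2) +
          ENNReal.ofReal (0.994 ^ (M + 3)) := by
        gcongr
        exact lint_tau M (by positivity)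
    _ = _ := by
        rw [← ENNReal.ofReal_add (by positivity) (by positivity)]

end Pool.Agent.H73.CE
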