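import Mathlib
import Pool.Agent.H73.CE.Two

set_option autoImplicit false
open MeasureTheory Set Real ProbabilityTheory

namespace Pool.Agent.H73.CE

lemma contra (n e1 e2 d1 d2 : ℕ) (he1 : e1 + 1 = n) (he2 : e2 + 2 = n) (hd1 : d1 = 1)
    (hd2 : d2 = 2) (w J1 J2 : ℝ) (hw : 0 < w) (h1 : 0 < J1) (h2 : 0 < J2)
    (hlt : π ^ n * J2 < 4 ^ n * J1 ^ 2)
    (H : w ^ e1 * (w / π * J2 ^ (-(1 : ℝ) / n)) ^ d1 ≤
      w ^ e2 * (w / 2 * J1 ^ (-(1 : ℝ) / n)) ^ d2) : False := by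
  subst hd1 hd2
  have hn : (n : ℝ) ≠ 0 := by
    have : 0 < n := by omega
    exact_mod_cast this.ne'
  set a := J1 ^ (-(1 : ℝ) / n) with ha
  set b := J2 ^ (-(1 : ℝ) / n) with hb
  have ha0 : 0 < a := Real.rpow_pos_of_pos h1 _
  have hb0 : 0 < b := Real.rpow_pos_of_pos h2 _
  have han : a ^ n = J1⁻¹ := by
    rw [ha, ← Real.rpow_natCast, ← Real.rpow_mul h1.le]
    have : -(1 : ℝ) / n * n = -1 := by field_simp
    rw [this, Real.rpow_neg_one]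
  have hbn : b ^ n = J2⁻¹ := by
    rw [hb, ← Real.rpow_natCast, ← Real.rpow_mul h2.le]
    have : -(1 : ℝ) / n * n = -1 := by field_simp
    rw [this, Real.rpow_neg_one]
  have hpi := Real.pi_pos
  have e1' : w ^ e1 * (w / π * b) ^ 1 = w ^ n * (b / π) := by
    rw [← he1]; ring
  have e2' : w ^ e2 * (w / 2 * a) ^ 2 = w ^ n * (a ^ 2 / 4) := by
    rw [← he2]; ring
  rw [e1', e2'] at H
  have H2 : b / π ≤ a ^ 2 / 4 := le_of_mul_le_mul_left H (by positivity)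
  have H3 : 4 * b ≤ π * a ^ 2 := by
    rw [div_le_div_iff₀ hpi (by norm_num)] at H2
    linarith
  have H4 : (4 * b) ^ n ≤ (π * a ^ 2) ^ n := pow_le_pow_left₀ (by positivity) H3 n
  have e3 : (π * a ^ 2) ^ n = π ^ n * (J1⁻¹) ^ 2 := by
    rw [mul_pow, ← pow_mul, mul_comm 2 n, pow_mul, han]
  rw [mul_pow, hbn, e3] at H4
  have H5 : 4 ^ n * J1 ^ 2 ≤ π ^ n * J2 := by
    have := mul_le_mul_of_nonneg_right H4 (by positivity : 0 ≤ J2 * J1 ^ 2)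
    calc (4 : ℝ) ^ n * J1 ^ 2 = 4 ^ n * J2⁻¹ * (J2 * J1 ^ 2) := by field_simp
      _ ≤ π ^ n * J1⁻¹ ^ 2 * (J2 * J1 ^ 2) := this
      _ = _ := by field_simp
  linarith

lemma numeric : (4096 : ℕ) / (1.26 * (4097 : ℕ)) ^ 2 + (0.994 : ℝ) ^ 4097 <
    (2 / √(2 * π) * ((64 ^ 2 - 1) / (64 * (64 ^ 2 + 1)) - 64 / (64 ^ 2 + 1) ^ 2)) ^ 2 := by
  have h1 : (0.994 : ℝ) ^ 4097 ≤ 1 / 10 ^ 9 := by
    have a : (0.994 : ℝ) ^ 128 ≤ 0.47 := by norm_num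
    calc (0.994 : ℝ) ^ 4097 = ((0.994 : ℝ) ^ 128) ^ 32 * 0.994 := by
          rw [← pow_mul, ← pow_succ]
      _ ≤ 0.47 ^ 32 * 1 := by gcongr; norm_num
      _ ≤ 1 / 10 ^ 9 := by norm_num
  have h2 : (2 / √(2 * π)) ^ 2 = 2 / π := by
    rw [div_pow, Real.sq_sqrt (by positivity)]
    field_simp
  rw [mul_pow (2 / √(2 * π)), h2]
  have hpi : π < 3.1416 := Real.pi_lt_d4
  have h3 : (2 : ℝ) / 3.1416 < 2 / π := by
    apply div_lt_div_of_pos_left (by norm_num) Real.pi_pos hpi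
  have h4 : (0 : ℝ) < (((64 : ℝ) ^ 2 - 1) / (64 * (64 ^ 2 + 1)) - 64 / (64 ^ 2 + 1) ^ 2) ^ 2 := by
    norm_num
  calc (4096 : ℕ) / (1.26 * (4097 : ℕ)) ^ 2 + (0.994 : ℝ) ^ 4097
      ≤ (4096 : ℕ) / (1.26 * (4097 : ℕ)) ^ 2 + 1 / 10 ^ 9 := by linarith
    _ < 2 / 3.1416 * (((64 : ℝ) ^ 2 - 1) / (64 * (64 ^ 2 + 1)) - 64 / (64 ^ 2 + 1) ^ 2) ^ 2 := by
        norm_num
    _ ≤ _ := by gcongr

lemma main_ineq :
    0 < ∫ A, igd (m := 4096) 1 A ∂(Measure.pi fun _ : Fin 1 => gp (4096 + 1)) ∧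
    0 < ∫ A, igd (m := 4096) 2 A ∂(Measure.pi fun _ : Fin 2 => gp (4096 + 1)) ∧
    π ^ 4097 * ∫ A, igd (m := 4096) 2 A ∂(Measure.pi fun _ : Fin 2 => gp (4096 + 1)) <
      4 ^ 4097 * (∫ A, igd (m := 4096) 1 A ∂(Measure.pi fun _ : Fin 1 => gp (4096 + 1))) ^ 2 := by
  have hI1 := I1_eq 4095
  have hI2 := I2_eq 4094
  have hL := I1_lower 4096 64 (by norm_num) (by norm_num)
  have hU := I2_upper 4094
  have hP := I2_pos 4096
  have hnum := numeric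
  rw [show (4095 + 1 : ℕ) = 4096 from rfl] at hI1
  rw [show (4094 + 2 : ℕ) = 4096 from rfl] at hI2 hU
  rw [show (4094 + 3 : ℕ) = 4097 from rfl] at hU
  rw [hI1, hI2]
  set J1 := ∫ z, g1 4096 z ∂(ga.prod (gp 4096)) with hJ1
  set J2 := ∫ z, g2 4096 z ∂((ga.prod (gp 4096)).prod (ga.prod (gp 4096))) with hJ2
  have hc : 0 < 2 / √(2 * π) *
      ((64 ^ 2 - 1) / (64 * (64 ^ 2 + 1)) - 64 / (64 ^ 2 + 1) ^ 2) := by
    have : 0 < 2 / √(2 * π) := by positivity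
    apply mul_pos this
    norm_num
  have h2 : 0 < 2 ^ (4096 + 1) * J1 := lt_of_lt_of_le hc hL
  have hJ1pos : 0 < J1 := (pos_iff_pos_of_mul_pos h2).1 (by positivity)
  refine ⟨hJ1pos, hP, ?_⟩
  calc π ^ 4097 * J2 ≤ (4096 : ℕ) / (1.26 * (4097 : ℕ)) ^ 2 + (0.994 : ℝ) ^ 4097 := hU
    _ < (2 / √(2 * π) * ((64 ^ 2 - 1) / (64 * (64 ^ 2 + 1)) - 64 / (64 ^ 2 + 1) ^ 2)) ^ 2 := hnum
    _ ≤ (2 ^ (4096 + 1) * J1) ^ 2 := by
        apply pow_le_pow_left₀ hc.le hL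
    _ = 4 ^ 4097 * J1 ^ 2 := by
        rw [mul_pow, ← pow_mul, show (4096 + 1) * 2 = 2 * 4097 from rfl, pow_mul]
        norm_num

/-- volume of the unit ball in dimension one -/
lemma kappa_one : (volume {x : Fin 1 → ℝ | ∑ t, x t ^ 2 ≤ 1}).toReal = 2 := by
  have : {x : Fin 1 → ℝ | ∑ t, x t ^ 2 ≤ 1} = Icc (fun _ => -1) (fun _ => 1) := by
    ext x
    simp only [Fin.sum_univ_one, mem_ofPred_eq, mem_Icc, Pi.le_def, Fin.forall_fin_one]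
    rw [sq_le_one_iff_abs_le_one, abs_le]
  rw [this, Real.volume_Icc_pi, Fin.prod_univ_one, ENNReal.toReal_ofReal] <;> norm_num

lemma kappa_two : (volume {x : Fin 2 → ℝ | ∑ t, x t ^ 2 ≤ 1}).toReal = π := by
  have : {x : Fin 2 → ℝ | ∑ t, x t ^ 2 ≤ 1} = stad 0 := by
    ext x
    simp only [Fin.sum_univ_two, mem_ofPred_eq, stad, mul_zero, sub_zero]
    constructor
    · intro h; exact ⟨0, by simp, h⟩
    · rintro ⟨_, _, h⟩; exact h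
  rw [this, volume_stad le_rfl, ENNReal.toReal_ofReal] <;> simp [Real.pi_pos.le]

lemma kappa_pos (n : ℕ) : 0 < (volume {x : Fin n → ℝ | ∑ t, x t ^ 2 ≤ 1}).toReal := by
  apply ENNReal.toReal_pos
  · have h : IsOpen {x : Fin n → ℝ | ∑ t, x t ^ 2 < 1} := isOpen_lt (by fun_prop) (by fun_prop)
    have h2 : ({x : Fin n → ℝ | ∑ t, x t ^ 2 < 1}).Nonempty := ⟨0, by simp⟩
    have h3 : {x : Fin n → ℝ | ∑ t, x t ^ 2 < 1} ⊆ {x : Fin n → ℝ | ∑ t, x t ^ 2 ≤ 1} :=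
      fun x hx => by
        have h4 : ∑ t, x t ^ 2 < 1 := hx
        exact h4.le
    exact ((h.measure_pos volume h2).trans_le (measure_mono h3)).ne'
  · have h : {x : Fin n → ℝ | ∑ t, x t ^ 2 ≤ 1} ⊆ Icc (fun _ => -1) (fun _ => 1) := by
      intro x hx
      have key : ∀ i, |x i| ≤ 1 := by
        intro i
        have : x i ^ 2 ≤ 1 :=
          (Finset.single_le_sum (f := fun t : Fin n => x t ^ 2)
            (fun _ _ => sq_nonneg _) (Finset.mem_univ i)).trans hx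
        rwa [sq_le_one_iff_abs_le_one] at this
      exact ⟨fun i => (abs_le.1 (key i)).1, fun i => (abs_le.1 (key i)).2⟩
    exact ((measure_mono h).trans_lt (isCompact_Icc.measure_lt_top)).ne

end Pool.Agent.H73.CE
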