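import Mathlib
import Pool.Agent.H73.CE.Fin

set_option autoImplicit false
open MeasureTheory

namespace Pool.Agent.H73.CE

/-- the quantity of the problem, with the codimension as an explicit argument -/
noncomputable def Phi (n : ℕ) (κ : ℕ → ℝ) (k : ℕ) (K : Set (Fin n → ℝ)) : ℝ :=
  κ n / κ k *
      (∫ A : Fin k → Fin n → ℝ,
        ((volume ((fun x : Fin n → ℝ => (Matrix.of A).mulVec x) '' K)).toReal /
            Real.sqrt ((Matrix.of A * (Matrix.of A).transpose).det)) ^ (-(n : ℝ))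
        ∂(Measure.pi (fun _ : Fin k =>
            Measure.pi (fun _ : Fin n => ProbabilityTheory.gaussianReal 0 1)))) ^ (-(1 : ℝ) / n)

noncomputable def kap (m : ℕ) : ℝ := (volume {x : Fin m → ℝ | ∑ t, x t ^ 2 ≤ 1}).toReal

lemma Phi_cyl (m k : ℕ) (κ : ℕ → ℝ) : Phi (m + 1) κ k (cyl m) = κ (m + 1) / κ k *
    (∫ A, igd (m := m) k A ∂(Measure.pi fun _ : Fin k => gp (m + 1))) ^
      (-(1 : ℝ) / ((m + 1 : ℕ) : ℝ)) := rfl

lemma last (H : kap (4096 + 1) ^ 4096 * Phi (4096 + 1) kap 2 (cyl 4096) ^ 1 ≤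
    kap (4096 + 1) ^ 4095 * Phi (4096 + 1) kap 1 (cyl 4096) ^ 2) : False := by
  rw [Phi_cyl, Phi_cyl] at H
  have k1 : kap 1 = 2 := kappa_one
  have k2 : kap 2 = Real.pi := kappa_two
  rw [k1, k2] at H
  obtain ⟨h1, h2, h3⟩ := main_ineq
  exact contra (4096 + 1) 4096 4095 1 2 rfl rfl rfl rfl (kap (4096 + 1)) _ _ (kappa_pos _)
    h1 h2 h3 H

end Pool.Agent.H73.CE
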